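import Mathlib

/-!
Finite product averages: `avg w f` is the average of `f` over all functions `ι → κ`, the values being
drawn independently with weights `w`.
-/

set_option autoImplicit false

namespace Pool.Agent.H123R2

open Finset

section
variable {ι κ : Type} [Fintype ι] [DecidableEq ι] [Fintype κ]

/-- weighted product average -/
noncomputable def avg (w : κ → ℝ) (f : (ι → κ) → ℝ) : ℝ :=
  ∑ g : ι → κ, (∏ i, w (g i)) * f g

theorem avg_add (w : κ → ℝ) (f h : (ι → κ) → ℝ) :
    avg w (fun g => f g + h g) = avg w f + avg w h := by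
  unfold avg
  rw [← Finset.sum_add_distrib]
  exact Finset.sum_congr rfl fun g _ => by ring

theorem avg_mul_left (w : κ → ℝ) (c : ℝ) (f : (ι → κ) → ℝ) :
    avg w (fun g => c * f g) = c * avg w f := by
  unfold avg
  rw [Finset.mul_sum]
  exact Finset.sum_congr rfl fun g _ => by ring

theorem avg_sum {α : Type*} (w : κ → ℝ) (s : Finset α) (f : α → (ι → κ) → ℝ) :
    avg w (fun g => ∑ a ∈ s, f a g) = ∑ a ∈ s, avg w (f a) := by
  unfold avg
  rw [Finset.sum_comm]
  exact Finset.sum_congr rfl fun g _ => by rw [Finset.mul_sum]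

/-- the product formula -/
theorem avg_prod (w : κ → ℝ) (φ : ι → κ → ℝ) :
    avg w (fun g => ∏ i, φ i (g i)) = ∏ i, ∑ k, w k * φ i k := by
  unfold avg
  rw [Finset.prod_univ_sum]
  rw [Fintype.piFinset_univ]
  exact Finset.sum_congr rfl fun g _ => by rw [← Finset.prod_mul_distrib]

theorem avg_one (w : κ → ℝ) (hw : ∑ k, w k = 1) : avg w (fun _ : ι → κ => (1 : ℝ)) = 1 := by
  have := avg_prod (ι := ι) w (fun _ _ => (1 : ℝ))
  simpa [hw] using this

theorem avg_const (w : κ → ℝ) (hw : ∑ k, w k = 1) (c : ℝ) :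
    avg w (fun _ : ι → κ => c) = c := by
  have h := avg_mul_left (ι := ι) w c (fun _ => (1 : ℝ))
  simp only [mul_one] at h
  rw [h, avg_one w hw, mul_one]

theorem avg_mono (w : κ → ℝ) (hw : ∀ k, 0 ≤ w k) {f h : (ι → κ) → ℝ} (hfh : ∀ g, f g ≤ h g) :
    avg w f ≤ avg w h := by
  unfold avg
  exact Finset.sum_le_sum fun g _ =>
    mul_le_mul_of_nonneg_left (hfh g) (Finset.prod_nonneg fun i _ => hw _)

theorem avg_nonneg (w : κ → ℝ) (hw : ∀ k, 0 ≤ w k) {f : (ι → κ) → ℝ} (hf : ∀ g, 0 ≤ f g) :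
    0 ≤ avg w f := by
  unfold avg
  exact Finset.sum_nonneg fun g _ => mul_nonneg (Finset.prod_nonneg fun i _ => hw _) (hf g)

theorem exists_le_avg (w : κ → ℝ) (hw : ∀ k, 0 ≤ w k) (hw1 : ∑ k, w k = 1)
    (f : (ι → κ) → ℝ) : ∃ g, f g ≤ avg w f := by
  by_contra hcon
  push Not at hcon
  have h1 : avg w f = avg w (fun g => (f g - avg w f) + avg w f) := by
    congr 1; ext g; ring
  rw [avg_add, avg_const w hw1] at h1
  have h2 : avg w (fun g => f g - avg w f) = 0 := by linarith
  unfold avg at h2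
  have h3 : ∀ g ∈ (Finset.univ : Finset (ι → κ)),
      0 ≤ (∏ i, w (g i)) * (f g - ∑ g : ι → κ, (∏ i, w (g i)) * f g) := fun g _ =>
    mul_nonneg (Finset.prod_nonneg fun i _ => hw _) (by
      have := hcon g
      unfold avg at this
      linarith)
  rw [Finset.sum_eq_zero_iff_of_nonneg h3] at h2
  have h4 : ∀ g : ι → κ, (∏ i, w (g i)) = 0 := by
    intro g
    have h5 := h2 g (Finset.mem_univ _)
    rcases mul_eq_zero.mp h5 with h | h
    · exact h
    · exfalso
      have := hcon g
      unfold avg at this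
      linarith
  have h5 : avg (ι := ι) w (fun _ => (1 : ℝ)) = 0 := by
    unfold avg
    exact Finset.sum_eq_zero fun g _ => by rw [h4 g]; ring
  rw [avg_one w hw1] at h5
  exact one_ne_zero h5

/-- weights on `Bool`: `true` has weight `θ` -/
def wB (θ : ℝ) : Bool → ℝ := fun b => if b then θ else 1 - θ

theorem wB_nonneg {θ : ℝ} (h0 : 0 ≤ θ) (h1 : θ ≤ 1) : ∀ b, 0 ≤ wB θ b := by
  intro b
  cases b <;> simp [wB] <;> linarith

theorem wB_sum (θ : ℝ) : ∑ b, wB θ b = 1 := by
  simp [wB]

/-- probability that all hits of a finite set fail -/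
theorem avg_all_false (θ : ℝ) (S : Finset ι) :
    avg (wB θ) (fun ξ : ι → Bool => if ∀ i ∈ S, ξ i = false then (1 : ℝ) else 0)
      = (1 - θ) ^ S.card := by
  have h1 : (fun ξ : ι → Bool => if ∀ i ∈ S, ξ i = false then (1 : ℝ) else 0)
      = fun ξ => ∏ i, (if i ∈ S then (if ξ i then (0 : ℝ) else 1) else 1) := by
    ext ξ
    split_ifs with h
    · symm
      apply Finset.prod_eq_one
      intro i _
      split_ifs with h1 h2
      · exact absurd h2 (by simp [h i h1])
      · rfl
      · rfl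
    · push Not at h
      obtain ⟨i, hi, hξ⟩ := h
      symm
      apply Finset.prod_eq_zero (Finset.mem_univ i)
      have : ξ i = true := by simpa using hξ
      simp [hi, this]
  rw [h1]
  rw [avg_prod (ι := ι) (wB θ) (fun i b => if i ∈ S then (if b then (0 : ℝ) else 1) else 1)]
  have h2 : ∀ i : ι, (∑ k, wB θ k * (if i ∈ S then (if k then (0 : ℝ) else 1) else 1))
      = if i ∈ S then (1 - θ) else 1 := by
    intro i
    by_cases hi : i ∈ S <;> simp [hi, wB]
  rw [Finset.prod_congr rfl fun i _ => h2 i]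
  rw [Finset.prod_ite_mem]
  simp

/-- probability of a single hit -/
theorem avg_single (θ : ℝ) (i : ι) :
    avg (wB θ) (fun ξ : ι → Bool => if ξ i = true then (1 : ℝ) else 0) = θ := by
  have h1 := avg_all_false (ι := ι) θ {i}
  have h2 : (fun ξ : ι → Bool => if ξ i = true then (1 : ℝ) else 0)
      = fun ξ => (1 : ℝ) + (-1) * (if ∀ j ∈ ({i} : Finset ι), ξ j = false then (1 : ℝ) else 0) := by
    ext ξ
    cases h : ξ i <;> simp [h]
  rw [h2, avg_add, avg_mul_left, h1, avg_const _ (wB_sum θ)]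
  simp

end

end Pool.Agent.H123R2
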