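import Pool.Agent.H123R2.Avg

/-!
The random chain of statuses.  At stage `i` we have a status `u : Finset V → Bool`.  Given hits
`ξ : Finset V → Bool`, a set `Z` keeps status `true` iff it had it and no facet `Z.erase v`,
`v ∈ Z ∩ A`, is both of status `true` and hit.
-/

set_option autoImplicit false
set_option linter.unusedSectionVars false

namespace Pool.Agent.H123R2

open Finset

section
variable {V : Type} [Fintype V] [DecidableEq V]

/-- one step of the chain -/
def step (A : Finset V) (u ξ : Finset V → Bool) : Finset V → Bool :=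
  fun Z => u Z && decide (∀ v ∈ Z ∩ A, ¬ (u (Z.erase v) = true ∧ ξ ((Z.erase v) ∩ A) = true))

theorem step_eq_true_iff (A : Finset V) (u ξ : Finset V → Bool) (Z : Finset V) :
    step A u ξ Z = true ↔ u Z = true ∧
      ∀ v ∈ Z ∩ A, u (Z.erase v) = true → ξ ((Z.erase v) ∩ A) = false := by
  unfold step
  rw [Bool.and_eq_true, decide_eq_true_iff]
  constructor
  · rintro ⟨h1, h2⟩
    refine ⟨h1, fun v hv hu => ?_⟩
    have := h2 v hv
    push Not at this
    simpa using this hu
  · rintro ⟨h1, h2⟩
    refine ⟨h1, fun v hv hc => ?_⟩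
    have := h2 v hv hc.1
    rw [hc.2] at this
    exact absurd this (by simp)

/-- expectation over the chain -/
noncomputable def EE (A : ℕ → Finset V) (θ : ℕ → ℝ) : ℕ → ((Finset V → Bool) → ℝ) → ℝ
  | 0, f => f (fun _ => true)
  | (i + 1), f => EE A θ i (fun u => avg (wB (θ i)) (fun ξ => f (step (A i) u ξ)))

theorem EE_add (A : ℕ → Finset V) (θ : ℕ → ℝ) (i : ℕ) (f h : (Finset V → Bool) → ℝ) :
    EE A θ i (fun u => f u + h u) = EE A θ i f + EE A θ i h := by
  induction i generalizing f h with
  | zero => rfl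
  | succ i ih =>
    simp only [EE]
    rw [← ih]
    congr 1
    ext u
    exact avg_add _ _ _

theorem EE_mul_left (A : ℕ → Finset V) (θ : ℕ → ℝ) (i : ℕ) (c : ℝ) (f : (Finset V → Bool) → ℝ) :
    EE A θ i (fun u => c * f u) = c * EE A θ i f := by
  induction i generalizing f with
  | zero => rfl
  | succ i ih =>
    simp only [EE]
    rw [← ih]
    congr 1
    ext u
    exact avg_mul_left _ _ _

theorem EE_zero_fun (A : ℕ → Finset V) (θ : ℕ → ℝ) (i : ℕ) :
    EE A θ i (fun _ => (0 : ℝ)) = 0 := by
  have := EE_mul_left A θ i 0 (fun _ => (0 : ℝ))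
  simpa using this

theorem EE_sum {α : Type*} (A : ℕ → Finset V) (θ : ℕ → ℝ) (i : ℕ) (s : Finset α)
    (f : α → (Finset V → Bool) → ℝ) :
    EE A θ i (fun u => ∑ a ∈ s, f a u) = ∑ a ∈ s, EE A θ i (f a) := by
  classical
  induction s using Finset.induction_on with
  | empty => simpa using EE_zero_fun A θ i
  | insert a s ha ih =>
    rw [Finset.sum_insert ha, ← ih, ← EE_add]
    congr 1
    ext u
    rw [Finset.sum_insert ha]

/-- `u` only looks at the trace on `S` -/
def Ret (S : Finset V) (u : Finset V → Bool) : Prop := ∀ Z, u Z = u (Z ∩ S)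

theorem Ret.mono {S T : Finset V} (hST : S ⊆ T) {u : Finset V → Bool} (h : Ret S u) : Ret T u := by
  intro Z
  rw [h Z, h (Z ∩ T), Finset.inter_assoc, Finset.inter_eq_right.mpr hST]

theorem erase_inter' (Z S : Finset V) (v : V) : (Z.erase v) ∩ S = (Z ∩ S).erase v := by
  ext a
  simp only [Finset.mem_inter, Finset.mem_erase]
  tauto

theorem Ret.step {A : Finset V} {u : Finset V → Bool} (h : Ret A u) (ξ : Finset V → Bool) :
    Ret A (step A u ξ) := by
  intro Z
  rw [Bool.eq_iff_iff, step_eq_true_iff, step_eq_true_iff, ← h Z]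
  have h1 : (Z ∩ A) ∩ A = Z ∩ A := by rw [Finset.inter_assoc, Finset.inter_self]
  rw [h1]
  apply and_congr_right
  intro _
  apply forall_congr'
  intro v
  apply imp_congr_right
  intro hv
  have h2 : ((Z ∩ A).erase v) ∩ A = (Z.erase v) ∩ A := by
    rw [erase_inter', h1, ← erase_inter']
  have h3 : u (Z.erase v) = u ((Z ∩ A).erase v) := by
    rw [h (Z.erase v), h ((Z ∩ A).erase v), h2]
  rw [h3, h2]

/-- the trace condition at stage `i` -/
def RetI (A : ℕ → Finset V) (i : ℕ) (u : Finset V → Bool) : Prop := Ret (A i) u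

/-- the value of `EE` depends only on statuses with the trace property -/
theorem EE_mono_ret {A : ℕ → Finset V} (hA : Monotone A) {θ : ℕ → ℝ}
    (i : ℕ) (h0 : ∀ j < i, 0 ≤ θ j) (h1 : ∀ j < i, θ j ≤ 1)
    {f h : (Finset V → Bool) → ℝ}
    (hfh : ∀ u, Ret (A i) u → f u ≤ h u) : EE A θ i f ≤ EE A θ i h := by
  induction i generalizing f h with
  | zero =>
    exact hfh _ (fun Z => rfl)
  | succ i ih =>
    simp only [EE]
    apply ih (fun j hj => h0 j (by omega)) (fun j hj => h1 j (by omega))
    intro u hu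
    apply avg_mono _ (wB_nonneg (h0 i (by omega)) (h1 i (by omega)))
    intro ξ
    exact hfh _ ((Ret.step hu ξ).mono (hA (Nat.le_succ i)))

theorem EE_congr_ret {A : ℕ → Finset V} (hA : Monotone A) {θ : ℕ → ℝ}
    (i : ℕ) (h0 : ∀ j < i, 0 ≤ θ j) (h1 : ∀ j < i, θ j ≤ 1)
    {f h : (Finset V → Bool) → ℝ}
    (hfh : ∀ u, Ret (A i) u → f u = h u) : EE A θ i f = EE A θ i h :=
  le_antisymm (EE_mono_ret hA i h0 h1 fun u hu => (hfh u hu).le)
    (EE_mono_ret hA i h0 h1 fun u hu => (hfh u hu).ge)

theorem EE_const {A : ℕ → Finset V} {θ : ℕ → ℝ} (i : ℕ) (c : ℝ) :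
    EE A θ i (fun _ => c) = c := by
  induction i with
  | zero => rfl
  | succ i ih =>
    simp only [EE]
    have : (fun u : Finset V → Bool => avg (wB (θ i))
        (fun ξ => (fun _ : Finset V → Bool => c) (step (A i) u ξ))) = fun _ => c := by
      ext u
      exact avg_const _ (wB_sum _) c
    rw [this, ih]

/-- indicator that all sets of a configuration have status `true` -/
noncomputable def ind (C : Finset (Finset V)) (u : Finset V → Bool) : ℝ :=
  if ∀ Z ∈ C, u Z = true then 1 else 0

theorem ind_nonneg (C : Finset (Finset V)) (u : Finset V → Bool) : 0 ≤ ind C u := by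
  unfold ind; split_ifs <;> norm_num

theorem ind_le_one (C : Finset (Finset V)) (u : Finset V → Bool) : ind C u ≤ 1 := by
  unfold ind; split_ifs <;> norm_num

theorem ind_insert (Z : Finset V) (C : Finset (Finset V)) (u : Finset V → Bool) :
    ind (insert Z C) u = ind C u * (if u Z = true then 1 else 0) := by
  unfold ind
  by_cases h1 : ∀ W ∈ C, u W = true <;> by_cases h2 : u Z = true
  · rw [if_pos, if_pos h1, if_pos h2, mul_one]
    intro W hW
    rcases Finset.mem_insert.mp hW with rfl | hW
    · exact h2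
    · exact h1 W hW
  · rw [if_neg, if_neg h2, mul_zero]
    intro h
    exact h2 (h Z (Finset.mem_insert_self _ _))
  · rw [if_neg, if_neg h1, zero_mul]
    intro h
    exact h1 fun W hW => h W (Finset.mem_insert_of_mem hW)
  · rw [if_neg, if_neg h1, zero_mul]
    intro h
    exact h1 fun W hW => h W (Finset.mem_insert_of_mem hW)

/-- the hit indices relevant for a configuration -/
noncomputable def NN (A : Finset V) (C : Finset (Finset V)) (u : Finset V → Bool) :
    Finset (Finset V) :=
  C.biUnion fun Z => ((Z ∩ A).filter fun v => u (Z.erase v) = true).image fun v => (Z.erase v) ∩ A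

theorem ind_step (A : Finset V) (C : Finset (Finset V)) (u ξ : Finset V → Bool) :
    ind C (step A u ξ) = ind C u * (if ∀ T ∈ NN A C u, ξ T = false then 1 else 0) := by
  unfold ind
  have key : (∀ Z ∈ C, step A u ξ Z = true) ↔
      (∀ Z ∈ C, u Z = true) ∧ (∀ T ∈ NN A C u, ξ T = false) := by
    constructor
    · intro h
      refine ⟨fun Z hZ => ((step_eq_true_iff _ _ _ _).mp (h Z hZ)).1, fun T hT => ?_⟩
      unfold NN at hT
      rw [Finset.mem_biUnion] at hT
      obtain ⟨Z, hZ, hT⟩ := hT
      rw [Finset.mem_image] at hT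
      obtain ⟨v, hv, rfl⟩ := hT
      rw [Finset.mem_filter] at hv
      exact ((step_eq_true_iff _ _ _ _).mp (h Z hZ)).2 v hv.1 hv.2
    · rintro ⟨h1, h2⟩ Z hZ
      rw [step_eq_true_iff]
      refine ⟨h1 Z hZ, fun v hv hu => h2 _ ?_⟩
      unfold NN
      rw [Finset.mem_biUnion]
      exact ⟨Z, hZ, Finset.mem_image.mpr ⟨v, Finset.mem_filter.mpr ⟨hv, hu⟩, rfl⟩⟩
  by_cases h1 : ∀ Z ∈ C, u Z = true <;> by_cases h2 : ∀ T ∈ NN A C u, ξ T = false
  · rw [if_pos (key.mpr ⟨h1, h2⟩), if_pos h1, if_pos h2, mul_one]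
  · rw [if_neg fun h => h2 (key.mp h).2, if_neg h2, mul_zero]
  · rw [if_neg fun h => h1 (key.mp h).1, if_neg h1, zero_mul]
  · rw [if_neg fun h => h1 (key.mp h).1, if_neg h1, zero_mul]

theorem avg_ind_step (A : Finset V) (C : Finset (Finset V)) (u : Finset V → Bool) (θ : ℝ) :
    avg (wB θ) (fun ξ => ind C (step A u ξ)) = ind C u * (1 - θ) ^ (NN A C u).card := by
  have h1 : (fun ξ => ind C (step A u ξ)) =
      fun ξ => ind C u * (if ∀ T ∈ NN A C u, ξ T = false then 1 else 0) := by
    ext ξ; exact ind_step A C u ξ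
  rw [h1, avg_mul_left, avg_all_false]

/-- number of valid facets -/
def nn (u : Finset V → Bool) (W : Finset V) : ℕ := (W.filter fun v => u (W.erase v) = true).card

/-- total number of valid facets of the sets of a configuration -/
def MM (C : Finset (Finset V)) (u : Finset V → Bool) : ℕ := ∑ W ∈ C, nn u W

/-- traces of a configuration on `A` -/
def trc (A : Finset V) (C : Finset (Finset V)) : Finset (Finset V) := C.image fun Z => Z ∩ A

theorem ind_trc {A : Finset V} {u : Finset V → Bool} (hu : Ret A u) (C : Finset (Finset V)) :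
    ind (trc A C) u = ind C u := by
  unfold ind trc
  congr 1
  rw [eq_iff_iff]
  constructor
  · intro h Z hZ
    rw [hu Z]
    exact h _ (Finset.mem_image_of_mem _ hZ)
  · intro h W hW
    obtain ⟨Z, hZ, rfl⟩ := Finset.mem_image.mp hW
    rw [← hu Z]
    exact h Z hZ

theorem NN_eq {A : Finset V} {u : Finset V → Bool} (hu : Ret A u) (C : Finset (Finset V)) :
    NN A C u = (trc A C).biUnion fun W =>
      (W.filter fun v => u (W.erase v) = true).image fun v => W.erase v := by
  unfold NN trc
  rw [Finset.image_biUnion]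
  apply Finset.biUnion_congr rfl
  intro Z hZ
  have h1 : ((Z ∩ A).filter fun v => u (Z.erase v) = true) =
      ((Z ∩ A).filter fun v => u ((Z ∩ A).erase v) = true) := by
    apply Finset.filter_congr
    intro v hv
    rw [hu (Z.erase v), erase_inter']
  rw [h1]
  apply Finset.image_congr
  intro v hv
  exact erase_inter' Z A v

theorem card_NN_le {A : Finset V} {u : Finset V → Bool} (hu : Ret A u) (C : Finset (Finset V)) :
    (NN A C u).card ≤ MM (trc A C) u := by
  rw [NN_eq hu]
  refine Finset.card_biUnion_le.trans ?_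
  unfold MM nn
  exact Finset.sum_le_sum fun W _ => Finset.card_image_le

/-- two different sets have at most one common facet -/
theorem common_facet {W W' : Finset V} (hne : W ≠ W') {v v' : V} (hv : v ∈ W) (hv' : v' ∈ W')
    (h : W.erase v = W'.erase v') : W \ W' = {v} := by
  have hvW' : v ∉ W' := by
    intro hvW'
    have h1 : v ∉ W'.erase v' := by rw [← h]; exact Finset.notMem_erase v W
    have h2 : v = v' := by
      by_contra h3
      exact h1 (Finset.mem_erase.mpr ⟨h3, hvW'⟩)
    subst h2
    apply hne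
    rw [← Finset.insert_erase hv, h, Finset.insert_erase hvW']
  ext a
  rw [Finset.mem_sdiff, Finset.mem_singleton]
  constructor
  · rintro ⟨ha, ha'⟩
    by_contra hne'
    have : a ∈ W.erase v := Finset.mem_erase.mpr ⟨hne', ha⟩
    rw [h] at this
    exact ha' (Finset.mem_of_mem_erase this)
  · rintro rfl
    exact ⟨hv, hvW'⟩

theorem MM_le_card_NN {A : Finset V} {u : Finset V → Bool} (hu : Ret A u)
    (C : Finset (Finset V)) :
    MM (trc A C) u ≤ (NN A C u).card + (trc A C).card ^ 2 := by
  classical
  rw [NN_eq hu]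
  set D := trc A C with hD
  -- pairs
  set Pr : Finset ((_ : Finset V) × V) :=
    D.sigma fun W => W.filter fun v => u (W.erase v) = true with hPr
  have hcard : MM D u = Pr.card := by
    rw [hPr, Finset.card_sigma]; rfl
  set bad : Finset ((_ : Finset V) × V) := Pr.filter fun p =>
    ∃ W' ∈ D, W' ≠ p.1 ∧ ∃ v' ∈ W', p.1.erase p.2 = W'.erase v' with hbad
  have h1 : (Pr \ bad).card ≤ (D.biUnion fun W =>
      (W.filter fun v => u (W.erase v) = true).image fun v => W.erase v).card := by
    apply Finset.card_le_card_of_injOn (fun p => p.1.erase p.2)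
    · intro p hp
      rw [Finset.mem_coe, Finset.mem_sdiff] at hp
      have hp1 := hp.1
      rw [hPr, Finset.mem_sigma] at hp1
      rw [Finset.mem_coe, Finset.mem_biUnion]
      exact ⟨p.1, hp1.1, Finset.mem_image.mpr ⟨p.2, hp1.2, rfl⟩⟩
    · intro p hp q hq hpq
      rw [Finset.mem_coe, Finset.mem_sdiff] at hp hq
      have hp1 := hp.1
      have hq1 := hq.1
      rw [hPr, Finset.mem_sigma, Finset.mem_filter] at hp1 hq1
      by_cases hne : q.1 = p.1
      · obtain ⟨W, v⟩ := p
        obtain ⟨W', v'⟩ := q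
        simp only at hne hpq hp1 hq1
        subst hne
        have : v = v' := by
          by_contra hvv
          have h3 : v ∈ W'.erase v' := Finset.mem_erase.mpr ⟨hvv, hp1.2.1⟩
          rw [← hpq] at h3
          exact Finset.notMem_erase v W' h3
        subst this
        rfl
      · exfalso
        apply hp.2
        rw [hbad, Finset.mem_filter]
        exact ⟨hp.1, q.1, hq1.1, hne, q.2, hq1.2.1, hpq⟩
  have h2 : bad.card ≤ D.card ^ 2 := by
    have h3 : bad ⊆ (D ×ˢ D).biUnion fun WW =>
        if (WW.1 \ WW.2).card ≤ 1 then (WW.1 \ WW.2).image (fun v => (⟨WW.1, v⟩ : (_ : Finset V) × V))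
          else ∅ := by
      intro p hp
      rw [hbad, Finset.mem_filter] at hp
      obtain ⟨hp1, W', hW', hne, v', hv', he⟩ := hp
      rw [hPr, Finset.mem_sigma, Finset.mem_filter] at hp1
      rw [Finset.mem_biUnion]
      refine ⟨(p.1, W'), Finset.mem_product.mpr ⟨hp1.1, hW'⟩, ?_⟩
      have h4 := common_facet (fun h => hne h.symm) hp1.2.1 hv' he
      simp only
      rw [h4, if_pos (by simp)]
      simp
    refine (Finset.card_le_card h3).trans ?_
    refine Finset.card_biUnion_le.trans ?_
    calc ∑ WW ∈ D ×ˢ D, (if (WW.1 \ WW.2).card ≤ 1 then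
          (WW.1 \ WW.2).image (fun v => (⟨WW.1, v⟩ : (_ : Finset V) × V)) else ∅).card
        ≤ ∑ WW ∈ D ×ˢ D, 1 := by
          apply Finset.sum_le_sum
          intro WW _
          split_ifs with h
          · exact Finset.card_image_le.trans h
          · simp
      _ = D.card ^ 2 := by simp [sq]
  have h5 : Pr.card ≤ (Pr \ bad).card + bad.card := by
    exact Finset.card_le_card_sdiff_add_card
  rw [hcard]
  omega

end

end Pool.Agent.H123R2
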