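import Mathlib

set_option autoImplicit false

namespace Pool.Agent.H123R2

open Finset

theorem exp_neg_sub_le {a b : ℝ} (ha : 0 ≤ a) : Real.exp (-a) - Real.exp (-b) ≤ |a - b| := by
  rcases le_total b a with h | h
  · have : Real.exp (-a) ≤ Real.exp (-b) := Real.exp_le_exp.mpr (by linarith)
    have := abs_nonneg (a - b)
    linarith
  · have h1 : Real.exp (-b) = Real.exp (-a) * Real.exp (-(b - a)) := by
      rw [← Real.exp_add]; congr 1; ring
    have h2 : 1 - (b - a) ≤ Real.exp (-(b - a)) := by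
      have := Real.add_one_le_exp (-(b - a)); linarith
    have h3 : Real.exp (-a) ≤ 1 := by
      rw [Real.exp_le_one_iff]; linarith
    have h4 : 0 < Real.exp (-a) := Real.exp_pos _
    have h5 : |a - b| = b - a := by rw [abs_sub_comm, abs_of_nonneg (by linarith)]
    rw [h1, h5]
    nlinarith

theorem abs_exp_neg_sub_le {a b : ℝ} (ha : 0 ≤ a) (hb : 0 ≤ b) :
    |Real.exp (-a) - Real.exp (-b)| ≤ |a - b| := by
  rw [abs_le]
  constructor
  · have := exp_neg_sub_le (b := a) hb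
    rw [abs_sub_comm] at this
    linarith
  · exact exp_neg_sub_le ha

theorem log_one_sub_bounds {θ : ℝ} (h0 : 0 ≤ θ) (h1 : θ ≤ 1 / 2) :
    -θ - 2 * θ ^ 2 ≤ Real.log (1 - θ) ∧ Real.log (1 - θ) ≤ -θ := by
  have hpos : 0 < 1 - θ := by linarith
  constructor
  · have h2 := Real.one_sub_inv_le_log_of_pos hpos
    have h3 : -θ - 2 * θ ^ 2 ≤ 1 - (1 - θ)⁻¹ := by
      have h4 : 1 - (1 - θ)⁻¹ = -θ / (1 - θ) := by field_simp; ring
      rw [h4, le_div_iff₀ hpos]
      nlinarith [mul_nonneg h0 h0, mul_nonneg (mul_nonneg h0 h0) (by linarith : (0:ℝ) ≤ 1/2 - θ)]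
    linarith
  · have := Real.log_le_sub_one_of_pos hpos
    linarith

theorem pow_exp_close {θ b : ℝ} (h0 : 0 ≤ θ) (h1 : θ ≤ 1 / 2) (hb : 0 ≤ b) (n : ℕ) :
    |(1 - θ) ^ n - Real.exp (-b)| ≤ |θ * n - b| + 2 * θ ^ 2 * n := by
  have hpos : 0 < 1 - θ := by linarith
  obtain ⟨hl, hu⟩ := log_one_sub_bounds h0 h1
  have hn : (0 : ℝ) ≤ n := Nat.cast_nonneg n
  have h2 : (1 - θ) ^ n = Real.exp (-(-(n * Real.log (1 - θ)))) := by
    rw [neg_neg, mul_comm, ← Real.rpow_natCast, Real.rpow_def_of_pos hpos]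
  have ha : 0 ≤ -(n * Real.log (1 - θ)) := by
    have : n * Real.log (1 - θ) ≤ 0 := mul_nonpos_of_nonneg_of_nonpos hn (by linarith)
    linarith
  rw [h2]
  refine (abs_exp_neg_sub_le ha hb).trans ?_
  have h3 : -(n * Real.log (1 - θ)) - b = (θ * n - b) + n * (-Real.log (1 - θ) - θ) := by ring
  rw [h3]
  refine (abs_add_le _ _).trans ?_
  have h4 : |(n : ℝ) * (-Real.log (1 - θ) - θ)| ≤ 2 * θ ^ 2 * n := by
    rw [abs_of_nonneg (mul_nonneg hn (by linarith))]
    nlinarith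
  linarith

/-- comparison of sums with few exceptions -/
theorem sum_close {α : Type*} [DecidableEq α] (S B : Finset α) (g h : α → ℝ) {ε : ℝ}
    (hε : 0 ≤ ε)
    (hg0 : ∀ a ∈ S, 0 ≤ g a) (hg1 : ∀ a ∈ S, g a ≤ 1) (hh0 : ∀ a ∈ S, 0 ≤ h a)
    (hh1 : ∀ a ∈ S, h a ≤ 1) (hc : ∀ a ∈ S, a ∉ B → |g a - h a| ≤ ε) :
    |∑ a ∈ S, g a - ∑ a ∈ S, h a| ≤ S.card * ε + B.card := by
  rw [← Finset.sum_sub_distrib]
  refine (Finset.abs_sum_le_sum_abs _ _).trans ?_
  have h1 : ∀ a ∈ S, |g a - h a| ≤ ε + (if a ∈ B then 1 else 0) := by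
    intro a ha
    split_ifs with hB
    · have h2 : |g a - h a| ≤ 1 := by
        rw [abs_le]
        constructor <;> linarith [hg0 a ha, hg1 a ha, hh0 a ha, hh1 a ha]
      linarith
    · have := hc a ha hB
      linarith
  refine (Finset.sum_le_sum h1).trans ?_
  rw [Finset.sum_add_distrib, Finset.sum_const, nsmul_eq_mul]
  have h3 : ∑ a ∈ S, (if a ∈ B then (1 : ℝ) else 0) ≤ B.card := by
    rw [← Finset.sum_filter, Finset.sum_const, nsmul_eq_mul, mul_one]
    exact_mod_cast Finset.card_le_card (fun a ha => (Finset.mem_filter.mp ha).2)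
  linarith

end Pool.Agent.H123R2
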