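import Pool.Agent.H123R2.Chain
import Pool.Agent.H123R2.Real1

/-!
Joint probabilities of the statuses of finitely many sets close to a large set `X`.
-/

set_option autoImplicit false
set_option linter.unusedSectionVars false

namespace Pool.Agent.H123R2

open Finset

section
variable {V : Type} [Fintype V] [DecidableEq V]

/-- number of traces of the configuration on `A j` -/
def tr (A : ℕ → Finset V) (C : Finset (Finset V)) (j : ℕ) : ℕ := (trc (A j) C).card

theorem trc_trc {S T : Finset V} (h : S ⊆ T) (C : Finset (Finset V)) :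
    trc S (trc T C) = trc S C := by
  unfold trc
  rw [Finset.image_image]
  apply Finset.image_congr
  intro Z _
  simp only [Function.comp]
  rw [Finset.inter_assoc, Finset.inter_eq_right.mpr h]

theorem tr_trc {A : ℕ → Finset V} (hA : Monotone A) {i j : ℕ} (hij : j ≤ i)
    (C : Finset (Finset V)) : tr A (trc (A i) C) j = tr A C j := by
  unfold tr
  rw [trc_trc (hA hij)]

theorem tr_insert (A : ℕ → Finset V) (C : Finset (Finset V)) (j : ℕ) {W : Finset V}
    (hW : W ∈ C) {v : V} (hv : ∀ W' ∈ C, v ∈ W') :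
    tr A (insert (W.erase v) C) j = tr A C j + (if v ∈ A j then 1 else 0) := by
  unfold tr trc
  rw [Finset.image_insert]
  split_ifs with h
  · rw [Finset.card_insert_of_notMem]
    intro hmem
    obtain ⟨W', hW', he⟩ := Finset.mem_image.mp hmem
    have h1 : v ∈ W' ∩ A j := Finset.mem_inter.mpr ⟨hv W' hW', h⟩
    rw [he, Finset.mem_inter] at h1
    exact Finset.notMem_erase v W h1.1
  · rw [Finset.card_insert_of_mem, add_zero]
    rw [Finset.mem_image]
    refine ⟨W, hW, ?_⟩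
    rw [erase_inter', Finset.erase_eq_of_notMem]
    intro h2
    exact h (Finset.mem_inter.mp h2).2

/-- weight of a vertex -/
noncomputable def wt (P : ℝ) (A : ℕ → Finset V) (i : ℕ) (v : V) : ℝ :=
  P ^ ((range i).filter fun j => v ∈ A j).card

theorem wt_nonneg {P : ℝ} (hP : 0 ≤ P) (A : ℕ → Finset V) (i : ℕ) (v : V) : 0 ≤ wt P A i v :=
  pow_nonneg hP _

theorem wt_le_one {P : ℝ} (hP : 0 ≤ P) (hP1 : P ≤ 1) (A : ℕ → Finset V) (i : ℕ) (v : V) :
    wt P A i v ≤ 1 := pow_le_one₀ hP hP1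

/-- limit probability of a configuration -/
noncomputable def QQ (P : ℝ) (A : ℕ → Finset V) (i : ℕ) (C : Finset (Finset V)) : ℝ :=
  P ^ (∑ j ∈ range i, tr A C j)

theorem QQ_nonneg {P : ℝ} (hP : 0 ≤ P) (A : ℕ → Finset V) (i : ℕ) (C : Finset (Finset V)) :
    0 ≤ QQ P A i C := pow_nonneg hP _

theorem QQ_le_one {P : ℝ} (hP : 0 ≤ P) (hP1 : P ≤ 1) (A : ℕ → Finset V) (i : ℕ)
    (C : Finset (Finset V)) : QQ P A i C ≤ 1 := pow_le_one₀ hP hP1

theorem QQ_insert (P : ℝ) (A : ℕ → Finset V) (i : ℕ) (C : Finset (Finset V)) {W : Finset V}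
    (hW : W ∈ C) {v : V} (hv : ∀ W' ∈ C, v ∈ W') :
    QQ P A i (insert (W.erase v) C) = QQ P A i C * wt P A i v := by
  unfold QQ wt
  rw [← pow_add]
  congr 1
  rw [Finset.sum_congr rfl fun j _ => tr_insert A C j hW hv, Finset.sum_add_distrib]
  congr 1
  rw [Finset.card_filter]

/-- the weighted mass -/
noncomputable def mm (P : ℝ) (A : ℕ → Finset V) (i : ℕ) (X : Finset V) : ℝ :=
  ∑ v ∈ X ∩ A i, wt P A i v

theorem mm_nonneg {P : ℝ} (hP : 0 ≤ P) (A : ℕ → Finset V) (i : ℕ) (X : Finset V) :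
    0 ≤ mm P A i X := Finset.sum_nonneg fun v _ => wt_nonneg hP A i v

theorem mm_le {P : ℝ} (hP : 0 ≤ P) (hP1 : P ≤ 1) (A : ℕ → Finset V) (i : ℕ) (X : Finset V) :
    mm P A i X ≤ X.card := by
  unfold mm
  refine (Finset.sum_le_sum fun v _ => wt_le_one hP hP1 A i v).trans ?_
  rw [Finset.sum_const, nsmul_eq_mul, mul_one]
  exact_mod_cast Finset.card_le_card Finset.inter_subset_left

theorem mm_zero (P : ℝ) (A : ℕ → Finset V) (X : Finset V) :
    mm P A 0 X = (X ∩ A 0).card := by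
  unfold mm wt
  simp

theorem mm_succ (P : ℝ) {A : ℕ → Finset V} (hA : Monotone A) (i : ℕ) (X : Finset V) :
    mm P A (i + 1) X = P * mm P A i X + ((X ∩ A (i + 1)).card - (X ∩ A i).card : ℝ) := by
  unfold mm
  have hsub : X ∩ A i ⊆ X ∩ A (i + 1) :=
    Finset.inter_subset_inter_left (hA (Nat.le_succ i))
  rw [← Finset.sum_sdiff hsub]
  have h1 : ∑ v ∈ (X ∩ A (i + 1)) \ (X ∩ A i), wt P A (i + 1) v =
      ((X ∩ A (i + 1)).card - (X ∩ A i).card : ℝ) := by
    have h2 : ∀ v ∈ (X ∩ A (i + 1)) \ (X ∩ A i), wt P A (i + 1) v = 1 := by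
      intro v hv
      rw [Finset.mem_sdiff, Finset.mem_inter, Finset.mem_inter] at hv
      unfold wt
      have h3 : (range (i + 1)).filter (fun j => v ∈ A j) = ∅ := by
        rw [Finset.filter_eq_empty_iff]
        intro j hj hvj
        rw [Finset.mem_range] at hj
        exact hv.2 ⟨hv.1.1, hA (by omega : j ≤ i) hvj⟩
      rw [h3]
      simp
    rw [Finset.sum_congr rfl h2, Finset.sum_const, nsmul_eq_mul, mul_one,
      Finset.card_sdiff_of_subset hsub, Nat.cast_sub (Finset.card_le_card hsub)]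
  have h4 : ∑ v ∈ X ∩ A i, wt P A (i + 1) v = P * ∑ v ∈ X ∩ A i, wt P A i v := by
    rw [Finset.mul_sum]
    apply Finset.sum_congr rfl
    intro v hv
    rw [Finset.mem_inter] at hv
    unfold wt
    rw [Finset.range_add_one, Finset.filter_insert, if_pos hv.2, Finset.card_insert_of_notMem
      (by simp), pow_succ]
    ring
  rw [h1, h4]
  ring

theorem mm_close {P : ℝ} (hP : 0 ≤ P) (hP1 : P ≤ 1) {A : ℕ → Finset V} (hA : Monotone A)
    (X : Finset V) {a U : ℕ → ℝ} (hU0 : U 0 = a 0)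
    (hU : ∀ i, U (i + 1) = P * U i + (a (i + 1) - a i)) {δ : ℝ} (hδ : 0 ≤ δ) (i : ℕ)
    (hc : ∀ j ≤ i, |((X ∩ A j).card : ℝ) - a j * X.card| ≤ δ * X.card) :
    |mm P A i X - U i * X.card| ≤ 2 * (i + 1) * δ * X.card := by
  induction i with
  | zero =>
    rw [mm_zero, hU0]
    have := hc 0 le_rfl
    have h0 : 0 ≤ δ * X.card := by positivity
    push_cast
    linarith
  | succ i ih =>
    have h1 := ih fun j hj => hc j (by omega)
    have h2 := hc (i + 1) le_rfl
    have h3 := hc i (by omega)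
    rw [mm_succ P hA, hU]
    have h4 : P * mm P A i X + (((X ∩ A (i + 1)).card : ℝ) - (X ∩ A i).card) -
        (P * U i + (a (i + 1) - a i)) * X.card =
        P * (mm P A i X - U i * X.card) + ((((X ∩ A (i + 1)).card : ℝ) - a (i + 1) * X.card) -
          (((X ∩ A i).card : ℝ) - a i * X.card)) := by ring
    rw [h4]
    refine (abs_add_le _ _).trans ?_
    have h5 : |P * (mm P A i X - U i * X.card)| ≤ 2 * (i + 1) * δ * X.card := by
      rw [abs_mul, abs_of_nonneg hP]
      exact (mul_le_of_le_one_left (abs_nonneg _) hP1).trans h1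
    have h6 := abs_sub (((X ∩ A (i + 1)).card : ℝ) - a (i + 1) * X.card)
      (((X ∩ A i).card : ℝ) - a i * X.card)
    push_cast
    linarith

theorem sum_ite_sub {W S : Finset V} (h : W ⊆ S) (f : V → ℝ) :
    ∑ v ∈ S, (if v ∈ W then f v else 0) = ∑ v ∈ W, f v := by
  rw [Finset.sum_ite_mem, Finset.inter_eq_right.mpr h]

theorem nn_eq (u : Finset V → Bool) (W : Finset V) :
    (nn u W : ℝ) = ∑ v ∈ W, (if u (W.erase v) = true then (1 : ℝ) else 0) := by
  unfold nn
  rw [Finset.card_filter]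
  push_cast
  rfl

/-- first moment expansion -/
theorem ind_mul_MM (D : Finset (Finset V)) {S : Finset V} (hS : ∀ W ∈ D, W ⊆ S)
    (u : Finset V → Bool) :
    ind D u * MM D u = ∑ W ∈ D, ∑ v ∈ S, (if v ∈ W then ind (insert (W.erase v) D) u else 0) := by
  unfold MM
  push_cast
  rw [Finset.mul_sum]
  apply Finset.sum_congr rfl
  intro W hW
  rw [sum_ite_sub (hS W hW), nn_eq, Finset.mul_sum]
  apply Finset.sum_congr rfl
  intro v _
  rw [ind_insert]

/-- second moment expansion -/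
theorem ind_mul_MM_sq (D : Finset (Finset V)) {S : Finset V} (hS : ∀ W ∈ D, W ⊆ S)
    (u : Finset V → Bool) :
    ind D u * (MM D u : ℝ) ^ 2 = ∑ W ∈ D, ∑ W' ∈ D, ∑ p ∈ S ×ˢ S,
      (if p.1 ∈ W ∧ p.2 ∈ W' then
        ind (insert (W.erase p.1) (insert (W'.erase p.2) D)) u else 0) := by
  have h1 : ind D u * (MM D u : ℝ) ^ 2 =
      ind D u * ((∑ W ∈ D, ∑ v ∈ S, if v ∈ W then (if u (W.erase v) = true then (1:ℝ) else 0) else 0) *
      (∑ W ∈ D, ∑ v ∈ S, if v ∈ W then (if u (W.erase v) = true then (1:ℝ) else 0) else 0)) := by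
    have h2 : (MM D u : ℝ) = ∑ W ∈ D, ∑ v ∈ S,
        if v ∈ W then (if u (W.erase v) = true then (1:ℝ) else 0) else 0 := by
      unfold MM
      push_cast
      apply Finset.sum_congr rfl
      intro W hW
      rw [sum_ite_sub (hS W hW), nn_eq]
    rw [← h2]; ring
  rw [h1, Finset.sum_mul_sum, Finset.mul_sum]
  apply Finset.sum_congr rfl
  intro W hW
  rw [Finset.mul_sum]
  apply Finset.sum_congr rfl
  intro W' hW'
  rw [Finset.sum_mul_sum, Finset.mul_sum, Finset.sum_product]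
  apply Finset.sum_congr rfl
  intro v _
  rw [Finset.mul_sum]
  apply Finset.sum_congr rfl
  intro v' _
  by_cases h3 : v ∈ W <;> by_cases h4 : v' ∈ W'
  · rw [if_pos h3, if_pos h4, if_pos (⟨h3, h4⟩ : v ∈ W ∧ v' ∈ W'), ind_insert, ind_insert]
    ring
  · rw [if_neg h4, if_neg (fun h : v ∈ W ∧ v' ∈ W' => h4 h.2)]; ring
  · rw [if_neg h3, if_neg (fun h : v ∈ W ∧ v' ∈ W' => h3 h.1)]; ring
  · rw [if_neg h3, if_neg (fun h : v ∈ W ∧ v' ∈ W' => h3 h.1)]; ring

end

end Pool.Agent.H123R2
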