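import Pool.Agent.H123R2.Moment

/-!
The inductive step for joint probabilities, and the resulting lemma.
-/

set_option autoImplicit false
set_option linter.unusedSectionVars false

namespace Pool.Agent.H123R2

open Finset

section
variable {V : Type} [Fintype V] [DecidableEq V]

theorem QQ_succ {P : ℝ} {A : ℕ → Finset V} (hA : Monotone A) (i : ℕ) (C : Finset (Finset V)) :
    QQ P A (i + 1) C = QQ P A i (trc (A i) C) * P ^ (trc (A i) C).card := by
  unfold QQ
  rw [← pow_add, Finset.sum_range_succ]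
  congr 1
  have h1 : ∑ j ∈ range i, tr A (trc (A i) C) j = ∑ j ∈ range i, tr A C j := by
    apply Finset.sum_congr rfl
    intro j hj
    exact tr_trc hA (Finset.mem_range.mp hj).le C
  rw [h1]
  rfl

theorem trc_card_le (A : Finset V) (C : Finset (Finset V)) : (trc A C).card ≤ C.card :=
  Finset.card_image_le

theorem MM_le_of_near {A : ℕ → Finset V} {i : ℕ} {X : Finset V} {K : ℕ} {D : Finset (Finset V)}
    (h : Near A i X K D) (u : Finset V → Bool) : MM D u ≤ K * X.card := by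
  unfold MM nn
  refine (Finset.sum_le_sum fun W hW => (Finset.card_le_card (Finset.filter_subset _ W)).trans
    (Finset.card_le_card ((h.2 W hW).1.trans Finset.inter_subset_left))).trans ?_
  rw [Finset.sum_const, smul_eq_mul]
  exact Nat.mul_le_mul_right _ h.1

theorem config_step {P : ℝ} (hP : 0 ≤ P) (hP1 : P ≤ 1) {A : ℕ → Finset V} (hA : Monotone A)
    {θ : ℕ → ℝ} (i : ℕ) (h0 : ∀ j < i + 1, 0 ≤ θ j) (h1 : ∀ j < i + 1, θ j ≤ 1 / 2)
    {X : Finset V} {K : ℕ}
    {ε : ℝ} (hε : 0 ≤ ε) (hIH : IHyp P A θ i X (K + 2) ε) {C : Finset (Finset V)}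
    (hCK : C.card ≤ K) (hC : ∀ Z ∈ C, Z ⊆ X ∧ ∀ j < i + 1, ((X ∩ A j) \ Z).card ≤ K)
    {y σ δ U : ℝ} (hy0 : 0 ≤ y) (hU0 : 0 ≤ U) (hX : 0 < X.card) (hθ : θ i = y / X.card)
    (hσ : 0 < σ) (hδ : 1 / (X.card : ℝ) ≤ δ)
    (hm : |mm P A i X - U * X.card| ≤ 2 * (i + 1) * δ * X.card)
    (hPU : Real.exp (-(y * U)) = P) :
    |EE A θ (i + 1) (ind C) - QQ P A (i + 1) C| ≤
      y * K ^ 2 * (4 * ε + (4 * K ^ 2 + 1) * δ) / (2 * σ) + y * σ / 2
        + (y * K ^ 2 + 2 * y ^ 2 * K) * δ + ε + 2 * y * K * (i + 1) * δ := by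
  have h0' : ∀ j < i, 0 ≤ θ j := fun j hj => h0 j (by omega)
  have h1' : ∀ j < i, θ j ≤ 1 := fun j hj => (h1 j (by omega)).trans (by norm_num)
  have hθ0 := h0 i (by omega)
  have hθ1 := h1 i (by omega)
  have hN : (0 : ℝ) < X.card := by exact_mod_cast hX
  have hδ0 : 0 ≤ δ := le_trans (by positivity) hδ
  set D := trc (A i) C with hD
  have hDK : D.card ≤ K := (trc_card_le _ _).trans hCK
  have hnear : Near A i X K D := by
    refine ⟨hDK, fun W hW => ?_⟩
    obtain ⟨Z, hZ, rfl⟩ := Finset.mem_image.mp hW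
    refine ⟨Finset.inter_subset_inter_right (hC Z hZ).1, ?_⟩
    have h2 : (X ∩ A i) \ (Z ∩ A i) = (X ∩ A i) \ Z := by
      ext a
      simp only [Finset.mem_sdiff, Finset.mem_inter]
      tauto
    rw [h2]
    exact (hC Z hZ).2 i (by omega)
  set c : ℝ := D.card * mm P A i X with hc
  have hm0 := mm_nonneg hP A i X
  have hc0 : 0 ≤ c := mul_nonneg (Nat.cast_nonneg _) hm0
  set b : ℝ := θ i * c with hb
  have hb0 : 0 ≤ b := mul_nonneg hθ0 hc0
  have hKr : (0 : ℝ) ≤ K := Nat.cast_nonneg K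
  have hs : 0 < σ * X.card := by positivity
  -- pointwise bound
  have hpt : ∀ u, Ret (A i) u → |ind D u * (1 - θ i) ^ (NN (A i) C u).card - Real.exp (-b) * ind D u|
      ≤ θ i / (2 * (σ * X.card)) * (ind D u * ((MM D u : ℝ) - c) ^ 2) +
        (θ i * (σ * X.card) / 2 + θ i * K ^ 2 + 2 * θ i ^ 2 * (K * X.card)) := by
    intro u hu
    have g0 := ind_nonneg D u
    have g1 := ind_le_one D u
    have e1 : ind D u * (1 - θ i) ^ (NN (A i) C u).card - Real.exp (-b) * ind D u =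
        ind D u * ((1 - θ i) ^ (NN (A i) C u).card - Real.exp (-b)) := by ring
    rw [e1, abs_mul, abs_of_nonneg g0]
    have g2 := pow_exp_close hθ0 hθ1 hb0 (NN (A i) C u).card
    have hNNMM : ((NN (A i) C u).card : ℝ) ≤ MM D u := by exact_mod_cast card_NN_le hu C
    have hMMNN : (MM D u : ℝ) ≤ (NN (A i) C u).card + K ^ 2 := by
      have g3 := MM_le_card_NN hu C
      have g4 : (trc (A i) C).card ^ 2 ≤ K ^ 2 := Nat.pow_le_pow_left hDK 2
      have g5 : MM D u ≤ (NN (A i) C u).card + K ^ 2 := by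
        rw [hD]; omega
      exact_mod_cast g5
    have hMMK : (MM D u : ℝ) ≤ K * X.card := by exact_mod_cast MM_le_of_near hnear u
    have g3 : |θ i * (NN (A i) C u).card - b| ≤ θ i * |(MM D u : ℝ) - c| + θ i * K ^ 2 := by
      rw [hb, ← mul_sub, abs_mul, abs_of_nonneg hθ0, ← mul_add]
      apply mul_le_mul_of_nonneg_left _ hθ0
      have e2 : ((NN (A i) C u).card : ℝ) - c = ((MM D u : ℝ) - c) + ((NN (A i) C u).card - MM D u) :=
        by ring
      rw [e2]
      refine (abs_add_le _ _).trans ?_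
      have : |((NN (A i) C u).card : ℝ) - MM D u| ≤ K ^ 2 := by
        rw [abs_le]; constructor <;> nlinarith [sq_nonneg (K : ℝ)]
      linarith
    have g4 : |(MM D u : ℝ) - c| ≤ ((MM D u : ℝ) - c) ^ 2 / (2 * (σ * X.card)) + σ * X.card / 2 := by
      have h5 : 0 ≤ (|(MM D u : ℝ) - c| - σ * X.card) ^ 2 := sq_nonneg _
      have h6 : ((MM D u : ℝ) - c) ^ 2 = |(MM D u : ℝ) - c| ^ 2 := (sq_abs _).symm
      rw [h6, div_add_div _ _ (by positivity) (by norm_num), le_div_iff₀ (by positivity)]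
      nlinarith
    have g5 : 2 * θ i ^ 2 * ((NN (A i) C u).card : ℝ) ≤ 2 * θ i ^ 2 * (K * X.card) := by
      apply mul_le_mul_of_nonneg_left _ (by positivity)
      linarith
    have g6 : θ i * |(MM D u : ℝ) - c| ≤
        θ i * (((MM D u : ℝ) - c) ^ 2 / (2 * (σ * X.card)) + σ * X.card / 2) :=
      mul_le_mul_of_nonneg_left g4 hθ0
    have g7 : |(1 - θ i) ^ (NN (A i) C u).card - Real.exp (-b)| ≤
        θ i / (2 * (σ * X.card)) * ((MM D u : ℝ) - c) ^ 2 +
        (θ i * (σ * X.card) / 2 + θ i * K ^ 2 + 2 * θ i ^ 2 * (K * X.card)) := by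
      have e3 : θ i * (((MM D u : ℝ) - c) ^ 2 / (2 * (σ * X.card)) + σ * X.card / 2) =
        θ i / (2 * (σ * X.card)) * ((MM D u : ℝ) - c) ^ 2 + θ i * (σ * X.card) / 2 := by ring
      linarith
    refine (mul_le_mul_of_nonneg_left g7 g0).trans ?_
    have g8 : 0 ≤ θ i * (σ * X.card) / 2 + θ i * K ^ 2 + 2 * θ i ^ 2 * (K * X.card) := by positivity
    nlinarith
  -- expectation
  have hE1 : EE A θ (i + 1) (ind C) =
      EE A θ i (fun u => ind D u * (1 - θ i) ^ (NN (A i) C u).card) := by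
    simp only [EE]
    apply EE_congr_ret hA i h0' h1'
    intro u hu
    have := avg_ind_step (A i) C u (θ i)
    rw [← ind_trc hu C] at this
    exact this
  have hvar := variance_bound hP hP1 hA i h0' h1' hε hIH hnear
  have hE0 : 0 ≤ EE A θ i (ind D) := EE_nonneg hA i h0' h1' (ind_nonneg _)
  have hE1' : EE A θ i (ind D) ≤ 1 := EE_ind_le_one hA i h0' h1' _
  set R : ℝ := θ i * (σ * X.card) / 2 + θ i * K ^ 2 + 2 * θ i ^ 2 * (K * X.card) with hR
  have hmain : |EE A θ (i + 1) (ind C) - Real.exp (-b) * EE A θ i (ind D)| ≤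
      θ i / (2 * (σ * X.card)) * (K ^ 2 * (4 * X.card ^ 2 * ε + (4 * K ^ 2 + 1) * X.card)) + R := by
    rw [hE1]
    have hb1 : EE A θ i (fun u => ind D u * (1 - θ i) ^ (NN (A i) C u).card) ≤
        EE A θ i (fun u => (Real.exp (-b) * ind D u +
          θ i / (2 * (σ * X.card)) * (ind D u * ((MM D u : ℝ) - c) ^ 2)) + R) := by
      apply EE_mono_ret hA i h0' h1'
      intro u hu
      have := abs_le.mp (hpt u hu)
      linarith [this.2]
    have hb2 : EE A θ i (fun u => Real.exp (-b) * ind D u) ≤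
        EE A θ i (fun u => (ind D u * (1 - θ i) ^ (NN (A i) C u).card +
          θ i / (2 * (σ * X.card)) * (ind D u * ((MM D u : ℝ) - c) ^ 2)) + R) := by
      apply EE_mono_ret hA i h0' h1'
      intro u hu
      have := abs_le.mp (hpt u hu)
      linarith [this.1]
    rw [EE_add, EE_add, EE_mul_left, EE_mul_left, EE_const] at hb1
    rw [EE_add, EE_add, EE_mul_left, EE_mul_left, EE_const] at hb2
    have hb3 : θ i / (2 * (σ * X.card)) * EE A θ i (fun u => ind D u * ((MM D u : ℝ) - c) ^ 2) ≤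
        θ i / (2 * (σ * X.card)) * (K ^ 2 * (4 * X.card ^ 2 * ε + (4 * K ^ 2 + 1) * X.card)) :=
      mul_le_mul_of_nonneg_left hvar (by positivity)
    rw [abs_le]
    constructor <;> linarith
  -- the limit value
  have hQ : QQ P A (i + 1) C = QQ P A i D * P ^ D.card := QQ_succ hA i C
  have hQ0 := QQ_nonneg hP A i D
  have hQ1 := QQ_le_one hP hP1 A i D
  have hED : |EE A θ i (ind D) - QQ P A i D| ≤ ε := by
    apply hIH
    · omega
    · intro Z hZ
      refine ⟨(hnear.2 Z hZ).1.trans Finset.inter_subset_left, fun j hj => ?_⟩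
      have h6 := near_card_sdiff hA (hnear.2 Z hZ).2 hj
      omega
  have hPpow : P ^ D.card = Real.exp (-(D.card * (y * U))) := by
    rw [← hPU, ← Real.exp_nat_mul]
    congr 1
    ring
  have hexp : |Real.exp (-b) - P ^ D.card| ≤ 2 * y * K * (i + 1) * δ := by
    rw [hPpow]
    refine (abs_exp_neg_sub_le hb0 (by positivity)).trans ?_
    have e4 : b - D.card * (y * U) = (D.card * y / X.card) * (mm P A i X - U * X.card) := by
      rw [hb, hc, hθ]
      field_simp
    rw [e4, abs_mul, abs_of_nonneg (by positivity)]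
    refine (mul_le_mul_of_nonneg_left hm (by positivity)).trans ?_
    have e5 : (D.card * y / X.card) * (2 * (i + 1) * δ * X.card) = D.card * (2 * y * (i + 1) * δ) := by
      field_simp
    rw [e5]
    have hDr : (D.card : ℝ) ≤ K := by exact_mod_cast hDK
    have : (D.card : ℝ) * (2 * y * (i + 1) * δ) ≤ K * (2 * y * (i + 1) * δ) :=
      mul_le_mul_of_nonneg_right hDr (by positivity)
    linarith
  have hfin : |Real.exp (-b) * EE A θ i (ind D) - QQ P A (i + 1) C| ≤
      ε + 2 * y * K * (i + 1) * δ := by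
    rw [hQ]
    have e6 : Real.exp (-b) * EE A θ i (ind D) - QQ P A i D * P ^ D.card =
        Real.exp (-b) * (EE A θ i (ind D) - QQ P A i D) +
        QQ P A i D * (Real.exp (-b) - P ^ D.card) := by ring
    rw [e6]
    refine (abs_add_le _ _).trans ?_
    rw [abs_mul, abs_mul, abs_of_nonneg hQ0, abs_of_pos (Real.exp_pos _)]
    have hexp1 : Real.exp (-b) ≤ 1 := by rw [Real.exp_le_one_iff]; linarith
    have q1 : Real.exp (-b) * |EE A θ i (ind D) - QQ P A i D| ≤ ε :=
      (mul_le_of_le_one_left (abs_nonneg _) hexp1).trans hED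
    have q2 : QQ P A i D * |Real.exp (-b) - P ^ D.card| ≤ 2 * y * K * (i + 1) * δ :=
      (mul_le_of_le_one_left (abs_nonneg _) hQ1).trans hexp
    linarith
  have htot : |EE A θ (i + 1) (ind C) - QQ P A (i + 1) C| ≤
      |EE A θ (i + 1) (ind C) - Real.exp (-b) * EE A θ i (ind D)| +
      |Real.exp (-b) * EE A θ i (ind D) - QQ P A (i + 1) C| := abs_sub_le _ _ _
  refine htot.trans ((add_le_add hmain hfin).trans ?_)
  -- numeric estimates
  have n1 : θ i / (2 * (σ * X.card)) * (K ^ 2 * (4 * X.card ^ 2 * ε + (4 * K ^ 2 + 1) * X.card)) =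
      y * K ^ 2 * (4 * ε + (4 * K ^ 2 + 1) * (1 / (X.card : ℝ))) / (2 * σ) := by
    rw [hθ]
    field_simp
  have n2 : θ i * (σ * X.card) / 2 = y * σ / 2 := by
    rw [hθ]
    field_simp
  have n3 : θ i * K ^ 2 = y * K ^ 2 * (1 / (X.card : ℝ)) := by
    rw [hθ]; ring
  have n4 : 2 * θ i ^ 2 * (K * X.card) = 2 * y ^ 2 * K * (1 / (X.card : ℝ)) := by
    rw [hθ]
    field_simp
  rw [hR, n1, n2, n3, n4]
  have m1 : y * K ^ 2 * (4 * ε + (4 * K ^ 2 + 1) * (1 / (X.card : ℝ))) / (2 * σ) ≤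
      y * K ^ 2 * (4 * ε + (4 * K ^ 2 + 1) * δ) / (2 * σ) := by
    apply div_le_div_of_nonneg_right _ (by positivity)
    apply mul_le_mul_of_nonneg_left _ (by positivity)
    have : (4 * (K : ℝ) ^ 2 + 1) * (1 / (X.card : ℝ)) ≤ (4 * K ^ 2 + 1) * δ :=
      mul_le_mul_of_nonneg_left hδ (by positivity)
    linarith
  have m2 : y * K ^ 2 * (1 / (X.card : ℝ)) ≤ y * K ^ 2 * δ :=
    mul_le_mul_of_nonneg_left hδ (by positivity)
  have m3 : 2 * y ^ 2 * K * (1 / (X.card : ℝ)) ≤ 2 * y ^ 2 * K * δ :=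
    mul_le_mul_of_nonneg_left hδ (by positivity)
  linarith

end

/-- parameters of the construction -/
structure Par where
  P : ℝ
  a : ℕ → ℝ
  U : ℕ → ℝ
  y : ℕ → ℝ
  hP : 0 ≤ P
  hP1 : P ≤ 1
  hy : ∀ i, 0 ≤ y i
  hU : ∀ i, 0 ≤ U i
  hU0 : U 0 = a 0
  hUs : ∀ i, U (i + 1) = P * U i + (a (i + 1) - a i)
  hPU : ∀ i, Real.exp (-(y i * U i)) = P

/-- the configuration lemma -/
theorem config_lemma (p : Par) (i : ℕ) : ∀ (K : ℕ) (ε : ℝ), 0 < ε → ∃ δ : ℝ, 0 < δ ∧
    ∀ (V : Type) [Fintype V] [DecidableEq V] (A : ℕ → Finset V) (X : Finset V),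
      Monotone A → 0 < X.card → 1 / (X.card : ℝ) ≤ δ →
      (∀ j < i, |((X ∩ A j).card : ℝ) - p.a j * X.card| ≤ δ * X.card) →
      IHyp p.P A (fun j => p.y j / X.card) i X K ε := by
  induction i with
  | zero =>
    intro K ε hε
    refine ⟨1, one_pos, fun V _ _ A X _ _ _ _ C _ _ => ?_⟩
    have h1 : EE A (fun j => p.y j / X.card) 0 (ind C) = 1 := by
      simp [EE, ind]
    have h2 : QQ p.P A 0 C = 1 := by simp [QQ]
    rw [h1, h2]
    simpa using hε.le
  | succ i ih =>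
    intro K ε hε
    have hKr : (0 : ℝ) ≤ K := Nat.cast_nonneg K
    -- bound of all `y j`, `j ≤ i`
    obtain ⟨Y, hY1, hYj⟩ : ∃ Y : ℝ, 0 < Y ∧ ∀ j < i + 1, p.y j ≤ Y := by
      refine ⟨1 + ∑ j ∈ range (i + 1), p.y j, ?_, fun j hj => ?_⟩
      · have : 0 ≤ ∑ j ∈ range (i + 1), p.y j := Finset.sum_nonneg fun j _ => p.hy j
        linarith
      · have := Finset.single_le_sum (f := p.y) (fun j _ => p.hy j) (Finset.mem_range.mpr hj)
        linarith
    set y := p.y i with hy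
    have hy0 : 0 ≤ y := p.hy i
    set σ : ℝ := ε / (2 * (y + 1)) with hσ
    have hσ0 : 0 < σ := by positivity
    set ε₁ : ℝ := ε / 4 / (1 + 2 * y * K ^ 2 / σ) with hε₁
    have hε₁0 : 0 < ε₁ := by positivity
    obtain ⟨δ₁, hδ₁, hδ₁'⟩ := ih (K + 2) ε₁ hε₁0
    set M : ℝ := y * K ^ 2 * (4 * K ^ 2 + 1) / (2 * σ) + (y * K ^ 2 + 2 * y ^ 2 * K) +
      2 * y * K * (i + 1) with hM
    have hM0 : 0 ≤ M := by positivity
    set δ : ℝ := min (min δ₁ (ε / 4 / (M + 1))) (1 / (2 * Y)) with hδ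
    have hδ0 : 0 < δ := by positivity
    have hδa : δ ≤ δ₁ := (min_le_left _ _).trans (min_le_left _ _)
    have hδb : δ ≤ ε / 4 / (M + 1) := (min_le_left _ _).trans (min_le_right _ _)
    have hδc : δ ≤ 1 / (2 * Y) := min_le_right _ _
    refine ⟨δ, hδ0, fun V _ _ A X hA hX hXδ hcl C hCK hC => ?_⟩
    have hN : (0 : ℝ) < X.card := by exact_mod_cast hX
    have hIH : IHyp p.P A (fun j => p.y j / X.card) i X (K + 2) ε₁ := by
      apply hδ₁' V A X hA hX (hXδ.trans hδa)
      intro j hj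
      refine (hcl j (by omega)).trans ?_
      exact mul_le_mul_of_nonneg_right hδa hN.le
    have hθ0 : ∀ j < i + 1, 0 ≤ (fun j => p.y j / (X.card : ℝ)) j := fun j _ =>
      div_nonneg (p.hy j) hN.le
    have hθ1 : ∀ j < i + 1, (fun j => p.y j / (X.card : ℝ)) j ≤ 1 / 2 := by
      intro j hj
      have h1 : p.y j * (1 / (X.card : ℝ)) ≤ Y * (1 / (2 * Y)) :=
        mul_le_mul (hYj j hj) (hXδ.trans hδc) (by positivity) hY1.le
      have h2 : Y * (1 / (2 * Y)) = 1 / 2 := by field_simp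
      have h3 : p.y j / (X.card : ℝ) = p.y j * (1 / (X.card : ℝ)) := by ring
      simp only
      rw [h3]
      linarith
    have hm : |mm p.P A i X - p.U i * X.card| ≤ 2 * (i + 1) * δ * X.card :=
      mm_close p.hP p.hP1 hA X p.hU0 p.hUs hδ0.le i fun j hj => hcl j (by omega)
    have hst := config_step p.hP p.hP1 hA i hθ0 hθ1 hε₁0.le hIH hCK hC hy0 (p.hU i) hX rfl hσ0
      hXδ hm (p.hPU i)
    refine hst.trans ?_
    have k1 : y * σ / 2 ≤ ε / 4 := by
      have : y * σ / 2 = (y / (y + 1)) * (ε / 4) := by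
        rw [hσ]; field_simp; ring
      rw [this]
      have h2 : y / (y + 1) ≤ 1 := by
        rw [div_le_one (by positivity)]; linarith
      have h3 : 0 ≤ ε / 4 := by positivity
      nlinarith
    have k2 : y * K ^ 2 * (4 * ε₁) / (2 * σ) + ε₁ ≤ ε / 4 := by
      have h1 : y * K ^ 2 * (4 * ε₁) / (2 * σ) + ε₁ = ε₁ * (1 + 2 * y * K ^ 2 / σ) := by
        field_simp; ring
      rw [h1, hε₁]
      rw [div_mul_cancel₀]
      positivity
    have k3 : M * δ ≤ ε / 4 := by
      have h1 : M * δ ≤ M * (ε / 4 / (M + 1)) := mul_le_mul_of_nonneg_left hδb hM0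
      have h2 : M * (ε / 4 / (M + 1)) = (M / (M + 1)) * (ε / 4) := by ring
      have h3 : M / (M + 1) ≤ 1 := by
        rw [div_le_one (by positivity)]; linarith
      have h4 : 0 ≤ ε / 4 := by positivity
      nlinarith
    have k4 : y * K ^ 2 * (4 * ε₁ + (4 * K ^ 2 + 1) * δ) / (2 * σ) =
        y * K ^ 2 * (4 * ε₁) / (2 * σ) + y * K ^ 2 * (4 * K ^ 2 + 1) / (2 * σ) * δ := by
      ring
    rw [k4]
    have k5 : M * δ = y * K ^ 2 * (4 * K ^ 2 + 1) / (2 * σ) * δ + (y * K ^ 2 + 2 * y ^ 2 * K) * δ +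
      2 * y * K * (i + 1) * δ := by rw [hM]; ring
    linarith

end Pool.Agent.H123R2
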