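import Pool.Agent.H123R2.ConfigStep

/-!
The covering family produced by the chain, for a fixed partition of the ground set.
-/

set_option autoImplicit false
set_option linter.unusedSectionVars false

namespace Pool.Agent.H123R2

open Finset

section
variable {V : Type} [Fintype V] [DecidableEq V]

/-- the members chosen at one level -/
def lev (r : ℕ) (A : Finset V) (u ξ : Finset V → Bool) : Finset (Finset V) :=
  (powersetCard r univ).filter fun X => u X = true ∧ ξ (X ∩ A) = true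

/-- invariant of the chain -/
structure Inv (r : ℕ) (A : ℕ → Finset V) (L : ℕ) (F : Finset (Finset V)) (u : Finset V → Bool) :
    Prop where
  unif : ∀ Z ∈ F, Z.card = r
  cov : ∀ Y : Finset V, Y.card = r + 1 → u Y = false → ∃ Z ∈ F, Z ⊆ Y
  ret : ∀ S : Finset V, (∀ j < L, A j ⊆ S) → Ret S u

theorem inv_zero (r : ℕ) (A : ℕ → Finset V) : Inv r A 0 ∅ (fun _ => true) := by
  refine ⟨by simp, fun Y _ h => by simp at h, fun S _ Z => rfl⟩

theorem inv_succ {r : ℕ} {A : ℕ → Finset V} (hA : Monotone A) {L : ℕ} {F : Finset (Finset V)}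
    {u : Finset V → Bool} (h : Inv r A L F u) (ξ : Finset V → Bool) :
    Inv r A (L + 1) (F ∪ lev r (A L) u ξ) (step (A L) u ξ) := by
  refine ⟨?_, ?_, ?_⟩
  · intro Z hZ
    rcases Finset.mem_union.mp hZ with hZ | hZ
    · exact h.unif Z hZ
    · unfold lev at hZ
      rw [Finset.mem_filter, Finset.mem_powersetCard] at hZ
      exact hZ.1.2
  · intro Y hY hu
    cases huY : u Y with
    | false =>
      obtain ⟨Z, hZ, hZY⟩ := h.cov Y hY huY
      exact ⟨Z, Finset.mem_union_left _ hZ, hZY⟩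
    | true =>
      have h1 : ¬ (step (A L) u ξ Y = true) := by rw [hu]; simp
      rw [step_eq_true_iff] at h1
      have h2 : ¬ ∀ v ∈ Y ∩ A L, u (Y.erase v) = true → ξ ((Y.erase v) ∩ A L) = false :=
        fun h3 => h1 ⟨huY, h3⟩
      push Not at h2
      obtain ⟨v, hv, hv1, hv2⟩ := h2
      refine ⟨Y.erase v, Finset.mem_union_right _ ?_, Finset.erase_subset _ _⟩
      unfold lev
      rw [Finset.mem_filter, Finset.mem_powersetCard]
      refine ⟨⟨Finset.subset_univ _, ?_⟩, hv1, ?_⟩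
      · rw [Finset.card_erase_of_mem (Finset.mem_inter.mp hv).1, hY]
        omega
      · simpa using hv2
  · intro S hS
    have h1 : Ret (A L) u := h.ret (A L) fun j hj => hA hj.le
    exact (Ret.step h1 ξ).mono (hS L (Nat.lt_succ_self L))

theorem card_lev (r : ℕ) (A : Finset V) (u ξ : Finset V → Bool) :
    ((lev r A u ξ).card : ℝ) =
      ∑ X ∈ powersetCard r univ, ind {X} u * (if ξ (X ∩ A) = true then 1 else 0) := by
  unfold lev
  rw [Finset.card_filter]
  push_cast
  apply Finset.sum_congr rfl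
  intro X _
  unfold ind
  by_cases h1 : u X = true <;> by_cases h2 : ξ (X ∩ A) = true <;> simp [h1, h2]

theorem avg_card_lev (r : ℕ) (A : Finset V) (u : Finset V → Bool) (θ : ℝ) :
    avg (wB θ) (fun ξ => ((lev r A u ξ).card : ℝ)) = θ * ∑ X ∈ powersetCard r univ, ind {X} u := by
  have h1 : (fun ξ : Finset V → Bool => ((lev r A u ξ).card : ℝ)) = fun ξ =>
      ∑ X ∈ powersetCard r univ, ind {X} u * (if ξ (X ∩ A) = true then 1 else 0) := by
    ext ξ; exact card_lev r A u ξ
  rw [h1, avg_sum, Finset.mul_sum]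
  apply Finset.sum_congr rfl
  intro X _
  rw [avg_mul_left, avg_single, mul_comm]

/-- existence of a good chain -/
theorem exists_chain (r : ℕ) {A : ℕ → Finset V} (hA : Monotone A) {θ : ℕ → ℝ} (L : ℕ)
    (h0 : ∀ j < L, 0 ≤ θ j) (h1 : ∀ j < L, θ j ≤ 1) (Φ : (Finset V → Bool) → ℝ) :
    ∃ (F : Finset (Finset V)) (u : Finset V → Bool), Inv r A L F u ∧
      (F.card : ℝ) + Φ u ≤
        ∑ i ∈ range L, θ i * ∑ X ∈ powersetCard r univ, EE A θ i (ind {X}) + EE A θ L Φ := by
  induction L generalizing Φ with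
  | zero =>
    refine ⟨∅, fun _ => true, inv_zero r A, ?_⟩
    simp [EE]
  | succ L ih =>
    obtain ⟨F, u, hinv, hle⟩ := ih (fun j hj => h0 j (by omega)) (fun j hj => h1 j (by omega))
      (fun u => avg (wB (θ L)) (fun ξ => ((lev r (A L) u ξ).card : ℝ) + Φ (step (A L) u ξ)))
    obtain ⟨ξ, hξ⟩ := exists_le_avg (wB (θ L)) (wB_nonneg (h0 L (by omega)) (h1 L (by omega)))
      (wB_sum _) (fun ξ => ((lev r (A L) u ξ).card : ℝ) + Φ (step (A L) u ξ))
    refine ⟨F ∪ lev r (A L) u ξ, step (A L) u ξ, inv_succ hA hinv ξ, ?_⟩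
    have h2 : ((F ∪ lev r (A L) u ξ).card : ℝ) ≤ F.card + (lev r (A L) u ξ).card := by
      exact_mod_cast Finset.card_union_le _ _
    have h3 : EE A θ L (fun u => avg (wB (θ L))
        (fun ξ => ((lev r (A L) u ξ).card : ℝ) + Φ (step (A L) u ξ))) =
        θ L * ∑ X ∈ powersetCard r univ, EE A θ L (ind {X}) + EE A θ (L + 1) Φ := by
      have h4 : (fun u : Finset V → Bool => avg (wB (θ L))
          (fun ξ => ((lev r (A L) u ξ).card : ℝ) + Φ (step (A L) u ξ))) = fun u =>
          θ L * (∑ X ∈ powersetCard r univ, ind {X} u) +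
            avg (wB (θ L)) (fun ξ => Φ (step (A L) u ξ)) := by
        ext u
        rw [avg_add, avg_card_lev]
      rw [h4, EE_add, EE_mul_left, EE_sum]
      rfl
    rw [Finset.sum_range_succ]
    rw [h3] at hle
    linarith

/-- the last family -/
def fin (r : ℕ) (B : Finset V) (G : ℕ → Finset (Finset V)) (u : Finset V → Bool) :
    Finset (Finset V) :=
  (powersetCard r univ).filter fun X =>
    X ∩ B ∈ G (X ∩ B).card ∧ (u X = true ∨ X ∩ B = ∅)

theorem card_fin_le (r : ℕ) (B : Finset V) (G : ℕ → Finset (Finset V)) (u : Finset V → Bool) :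
    ((fin r B G u).card : ℝ) ≤
      ∑ X ∈ (powersetCard r univ).filter (fun X => X ∩ B ∈ G (X ∩ B).card), ind {X} u +
      ((powersetCard r (univ : Finset V)).filter (fun X => X ∩ B = ∅)).card := by
  unfold fin
  rw [Finset.card_filter, Finset.card_filter, Finset.sum_filter]
  push_cast
  rw [← Finset.sum_add_distrib]
  apply Finset.sum_le_sum
  intro X _
  by_cases h3 : X ∩ B = ∅
  · rw [if_pos h3]
    have h4 : 0 ≤ (if X ∩ B ∈ G (X ∩ B).card then ind {X} u else 0) := by
      split_ifs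
      · exact ind_nonneg _ _
      · exact le_rfl
    have h5 : (if X ∩ B ∈ G (X ∩ B).card ∧ (u X = true ∨ X ∩ B = ∅) then (1 : ℝ) else 0) ≤ 1 := by
      split_ifs <;> norm_num
    linarith
  · unfold ind
    by_cases h1 : u X = true <;> by_cases h2 : X ∩ B ∈ G (X ∩ B).card <;> simp [h1, h2, h3]

/-- `G` covers `B` in dimension `m` -/
def Cov (B : Finset V) (m : ℕ) (G : Finset (Finset V)) : Prop :=
  (∀ Z ∈ G, Z ⊆ B ∧ Z.card = m) ∧ ∀ Y, Y ⊆ B → Y.card = m + 1 → ∃ Z ∈ G, Z ⊆ Y

theorem fin_cov {r : ℕ} {B S : Finset V} (hS : S = Bᶜ) {G : ℕ → Finset (Finset V)}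
    (hG : ∀ m ≤ r, Cov B m (G m)) (hG0 : ∅ ∈ G 0) {u : Finset V → Bool} (hu : Ret S u)
    {Y : Finset V} (hY : Y.card = r + 1) (huY : u Y = true) : ∃ Z ∈ fin r B G u, Z ⊆ Y := by
  by_cases hB : Y ∩ B = ∅
  · have hne : Y.Nonempty := by
      rw [← Finset.card_pos, hY]; omega
    obtain ⟨v, hv⟩ := hne
    refine ⟨Y.erase v, ?_, Finset.erase_subset _ _⟩
    unfold fin
    rw [Finset.mem_filter, Finset.mem_powersetCard]
    have h1 : (Y.erase v) ∩ B = ∅ := by
      rw [erase_inter', hB]; rfl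
    rw [h1]
    refine ⟨⟨Finset.subset_univ _, ?_⟩, by simpa using hG0, Or.inr rfl⟩
    rw [Finset.card_erase_of_mem hv, hY]; omega
  · have hpos : 0 < (Y ∩ B).card := by
      rw [Finset.card_pos]; exact Finset.nonempty_iff_ne_empty.mpr hB
    obtain ⟨m, hm⟩ : ∃ m, (Y ∩ B).card = m + 1 := ⟨(Y ∩ B).card - 1, by omega⟩
    have hmr : m ≤ r := by
      have := Finset.card_le_card (Finset.inter_subset_left : Y ∩ B ⊆ Y)
      omega
    obtain ⟨Z, hZ, hZY⟩ := (hG m hmr).2 (Y ∩ B) Finset.inter_subset_right hm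
    have hZc := ((hG m hmr).1 Z hZ).2
    have h1 : ((Y ∩ B) \ Z).card = 1 := by
      rw [Finset.card_sdiff_of_subset hZY, hm, hZc]; omega
    obtain ⟨v, hv⟩ := Finset.card_eq_one.mp h1
    have hvm : v ∈ (Y ∩ B) \ Z := by rw [hv]; exact Finset.mem_singleton_self v
    rw [Finset.mem_sdiff, Finset.mem_inter] at hvm
    have hZe : (Y ∩ B).erase v = Z := by
      ext a
      rw [Finset.mem_erase]
      constructor
      · rintro ⟨h2, h3⟩
        by_contra h4
        have : a ∈ (Y ∩ B) \ Z := Finset.mem_sdiff.mpr ⟨h3, h4⟩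
        rw [hv, Finset.mem_singleton] at this
        exact h2 this
      · intro h2
        refine ⟨fun h3 => hvm.2 (h3 ▸ h2), hZY h2⟩
    refine ⟨Y.erase v, ?_, Finset.erase_subset _ _⟩
    unfold fin
    rw [Finset.mem_filter, Finset.mem_powersetCard, erase_inter', hZe, hZc]
    refine ⟨⟨Finset.subset_univ _, ?_⟩, hZ, Or.inl ?_⟩
    · rw [Finset.card_erase_of_mem hvm.1.1, hY]; omega
    · rw [hu (Y.erase v)]
      have h2 : (Y.erase v) ∩ S = Y ∩ S := by
        rw [erase_inter', Finset.erase_eq_of_notMem]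
        rw [hS, Finset.mem_inter, Finset.mem_compl]
        exact fun h3 => h3.2 hvm.1.2
      rw [h2, ← hu Y]
      exact huY

/-- The covering family for a fixed partition. -/
theorem exists_cover (r : ℕ) {A : ℕ → Finset V} (hA : Monotone A) {θ : ℕ → ℝ} (L : ℕ)
    (h0 : ∀ j < L, 0 ≤ θ j) (h1 : ∀ j < L, θ j ≤ 1) {B : Finset V} (hB : ∀ j < L, A j ⊆ Bᶜ)
    {G : ℕ → Finset (Finset V)} (hG : ∀ m ≤ r, Cov B m (G m)) (hG0 : ∅ ∈ G 0) :
    ∃ F : Finset (Finset V), Cov univ r F ∧
      (F.card : ℝ) ≤ ∑ i ∈ range L, θ i * ∑ X ∈ powersetCard r univ, EE A θ i (ind {X}) +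
        ∑ X ∈ (powersetCard r univ).filter (fun X => X ∩ B ∈ G (X ∩ B).card), EE A θ L (ind {X}) +
        ((powersetCard r (univ : Finset V)).filter (fun X => X ∩ B = ∅)).card := by
  obtain ⟨F, u, hinv, hle⟩ := exists_chain r hA L h0 h1 (fun u =>
      ∑ X ∈ (powersetCard r univ).filter (fun X => X ∩ B ∈ G (X ∩ B).card), ind {X} u +
      ((powersetCard r (univ : Finset V)).filter (fun X => X ∩ B = ∅)).card)
  refine ⟨F ∪ fin r B G u, ⟨?_, ?_⟩, ?_⟩
  · intro Z hZ
    refine ⟨Finset.subset_univ _, ?_⟩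
    rcases Finset.mem_union.mp hZ with hZ | hZ
    · exact hinv.unif Z hZ
    · unfold fin at hZ
      rw [Finset.mem_filter, Finset.mem_powersetCard] at hZ
      exact hZ.1.2
  · intro Y _ hY
    cases huY : u Y with
    | false =>
      obtain ⟨Z, hZ, hZY⟩ := hinv.cov Y hY huY
      exact ⟨Z, Finset.mem_union_left _ hZ, hZY⟩
    | true =>
      obtain ⟨Z, hZ, hZY⟩ := fin_cov (r := r) rfl hG hG0 (hinv.ret _ hB) hY huY
      exact ⟨Z, Finset.mem_union_right _ hZ, hZY⟩
  · have h2 : ((F ∪ fin r B G u).card : ℝ) ≤ F.card + (fin r B G u).card := by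
      exact_mod_cast Finset.card_union_le _ _
    have h3 := card_fin_le r B G u
    rw [EE_add, EE_sum, EE_const] at hle
    linarith

end

end Pool.Agent.H123R2
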