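import Pool.Agent.H123R2.Config

/-!
First and second moments of the number of valid facets.
-/

set_option autoImplicit false
set_option linter.unusedSectionVars false

namespace Pool.Agent.H123R2

open Finset

section
variable {V : Type} [Fintype V] [DecidableEq V]

theorem EE_nonneg {A : ℕ → Finset V} (hA : Monotone A) {θ : ℕ → ℝ}
    (i : ℕ) (h0 : ∀ j < i, 0 ≤ θ j) (h1 : ∀ j < i, θ j ≤ 1)
    {f : (Finset V → Bool) → ℝ} (hf : ∀ u, 0 ≤ f u) : 0 ≤ EE A θ i f := by
  have := EE_mono_ret hA i h0 h1 (f := fun _ => (0 : ℝ)) (h := f) (fun u _ => hf u)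
  rwa [EE_zero_fun] at this

theorem EE_ind_le_one {A : ℕ → Finset V} (hA : Monotone A) {θ : ℕ → ℝ}
    (i : ℕ) (h0 : ∀ j < i, 0 ≤ θ j) (h1 : ∀ j < i, θ j ≤ 1)
    (C : Finset (Finset V)) : EE A θ i (ind C) ≤ 1 := by
  have := EE_mono_ret hA i h0 h1 (f := ind C) (h := fun _ => (1 : ℝ)) (fun u _ => ind_le_one C u)
  rwa [EE_const] at this

theorem EE_ite (A : ℕ → Finset V) (θ : ℕ → ℝ) (i : ℕ) (p : Prop) [Decidable p]
    (f : (Finset V → Bool) → ℝ) :
    EE A θ i (fun u => if p then f u else 0) = if p then EE A θ i f else 0 := by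
  split_ifs with h
  · rfl
  · exact EE_zero_fun A θ i

/-- the hypothesis used in the induction -/
def IHyp (P : ℝ) (A : ℕ → Finset V) (θ : ℕ → ℝ) (i : ℕ) (X : Finset V) (K : ℕ) (ε : ℝ) : Prop :=
  ∀ C : Finset (Finset V), C.card ≤ K → (∀ Z ∈ C, Z ⊆ X ∧ ∀ j < i, ((X ∩ A j) \ Z).card ≤ K) →
    |EE A θ i (ind C) - QQ P A i C| ≤ ε

/-- a configuration close to `X ∩ A i` -/
def Near (A : ℕ → Finset V) (i : ℕ) (X : Finset V) (K : ℕ) (D : Finset (Finset V)) : Prop :=
  D.card ≤ K ∧ ∀ W ∈ D, W ⊆ X ∩ A i ∧ ((X ∩ A i) \ W).card ≤ K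

/-- the exceptional vertices -/
def bad1 (S : Finset V) (D : Finset (Finset V)) : Finset V := D.biUnion fun W => S \ W

theorem bad1_card {A : ℕ → Finset V} {i : ℕ} {X : Finset V} {K : ℕ} {D : Finset (Finset V)}
    (h : Near A i X K D) : (bad1 (X ∩ A i) D).card ≤ K ^ 2 := by
  unfold bad1
  refine Finset.card_biUnion_le.trans ?_
  refine (Finset.sum_le_sum fun W hW => (h.2 W hW).2).trans ?_
  rw [Finset.sum_const, smul_eq_mul, sq]
  exact Nat.mul_le_mul_right _ h.1

theorem mem_of_not_bad1 {S : Finset V} {D : Finset (Finset V)} {v : V} (hv : v ∈ S)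
    (hb : v ∉ bad1 S D) : ∀ W ∈ D, v ∈ W := by
  intro W hW
  by_contra h
  apply hb
  unfold bad1
  rw [Finset.mem_biUnion]
  exact ⟨W, hW, Finset.mem_sdiff.mpr ⟨hv, h⟩⟩

theorem near_card_sdiff {A : ℕ → Finset V} (hA : Monotone A) {i : ℕ} {X W : Finset V} {K : ℕ}
    (h : ((X ∩ A i) \ W).card ≤ K) {j : ℕ} (hj : j < i) : ((X ∩ A j) \ W).card ≤ K :=
  (Finset.card_le_card (Finset.sdiff_subset_sdiff
    (Finset.inter_subset_inter_left (hA hj.le)) le_rfl)).trans h

theorem sdiff_erase_card {S W : Finset V} {v : V} {K : ℕ} (h : (S \ W).card ≤ K) :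
    (S \ (W.erase v)).card ≤ K + 1 := by
  have h1 : S \ (W.erase v) ⊆ insert v (S \ W) := by
    intro a ha
    rw [Finset.mem_sdiff, Finset.mem_erase] at ha
    rw [Finset.mem_insert, Finset.mem_sdiff]
    by_cases hav : a = v
    · exact Or.inl hav
    · right
      exact ⟨ha.1, fun h2 => ha.2 ⟨hav, h2⟩⟩
  refine (Finset.card_le_card h1).trans ((Finset.card_insert_le _ _).trans ?_)
  omega

theorem first_moment {P : ℝ} (hP : 0 ≤ P) (hP1 : P ≤ 1) {A : ℕ → Finset V} (hA : Monotone A)
    {θ : ℕ → ℝ} (i : ℕ) (h0 : ∀ j < i, 0 ≤ θ j) (h1 : ∀ j < i, θ j ≤ 1) {X : Finset V} {K : ℕ}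
    {ε : ℝ} (hε : 0 ≤ ε) (hIH : IHyp P A θ i X (K + 2) ε) {D : Finset (Finset V)}
    (hD : Near A i X K D) :
    |EE A θ i (fun u => ind D u * MM D u) - D.card * mm P A i X * QQ P A i D| ≤
      K * (X.card * ε + K ^ 2) := by
  set S := X ∩ A i with hS
  have hSX : S.card ≤ X.card := Finset.card_le_card Finset.inter_subset_left
  have e1 : EE A θ i (fun u => ind D u * MM D u) =
      ∑ W ∈ D, ∑ v ∈ S, (if v ∈ W then EE A θ i (ind (insert (W.erase v) D)) else 0) := by
    have h2 : (fun u : Finset V → Bool => ind D u * MM D u) =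
        fun u => ∑ W ∈ D, ∑ v ∈ S, (if v ∈ W then ind (insert (W.erase v) D) u else 0) := by
      ext u
      exact ind_mul_MM D (fun W hW => (hD.2 W hW).1) u
    rw [h2, EE_sum]
    apply Finset.sum_congr rfl
    intro W _
    rw [EE_sum]
    apply Finset.sum_congr rfl
    intro v _
    rw [EE_ite]
  have e2 : D.card * mm P A i X * QQ P A i D = ∑ W ∈ D, ∑ v ∈ S, QQ P A i D * wt P A i v := by
    rw [Finset.sum_const, nsmul_eq_mul, ← Finset.mul_sum]
    unfold mm
    ring
  rw [e1, e2, ← Finset.sum_sub_distrib]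
  refine (Finset.abs_sum_le_sum_abs _ _).trans ?_
  have hQ0 := QQ_nonneg hP A i D
  have hQ1 := QQ_le_one hP hP1 A i D
  have h3 : ∀ W ∈ D, |∑ v ∈ S, (if v ∈ W then EE A θ i (ind (insert (W.erase v) D)) else 0) -
      ∑ v ∈ S, QQ P A i D * wt P A i v| ≤ X.card * ε + (K : ℝ) ^ 2 := by
    intro W hW
    have h4 := sum_close S (bad1 S D)
      (fun v => if v ∈ W then EE A θ i (ind (insert (W.erase v) D)) else 0)
      (fun v => QQ P A i D * wt P A i v) hε ?_ ?_ ?_ ?_ ?_
    · refine h4.trans ?_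
      have h5 : (S.card : ℝ) * ε ≤ X.card * ε :=
        mul_le_mul_of_nonneg_right (by exact_mod_cast hSX) hε
      have h6 : ((bad1 S D).card : ℝ) ≤ (K : ℝ) ^ 2 := by exact_mod_cast bad1_card hD
      linarith
    · intro v _
      split_ifs
      · exact EE_nonneg hA i h0 h1 (ind_nonneg _)
      · exact le_rfl
    · intro v _
      split_ifs
      · exact EE_ind_le_one hA i h0 h1 _
      · exact zero_le_one
    · intro v _
      exact mul_nonneg hQ0 (wt_nonneg hP A i v)
    · intro v _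
      exact mul_le_one₀ hQ1 (wt_nonneg hP A i v) (wt_le_one hP hP1 A i v)
    · intro v hv hb
      have h5 := mem_of_not_bad1 hv hb
      rw [if_pos (h5 W hW), ← QQ_insert P A i D hW h5]
      apply hIH
      · refine (Finset.card_insert_le _ _).trans ?_
        have := hD.1
        omega
      · intro Z hZ
        rcases Finset.mem_insert.mp hZ with rfl | hZ
        · refine ⟨(Finset.erase_subset _ _).trans ((hD.2 W hW).1.trans
            Finset.inter_subset_left), fun j hj => ?_⟩
          have h6 := sdiff_erase_card (v := v) (near_card_sdiff hA (hD.2 W hW).2 hj)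
          omega
        · refine ⟨(hD.2 Z hZ).1.trans Finset.inter_subset_left, fun j hj => ?_⟩
          have h6 := near_card_sdiff hA (hD.2 Z hZ).2 hj
          omega
  refine (Finset.sum_le_sum h3).trans ?_
  rw [Finset.sum_const, nsmul_eq_mul]
  apply mul_le_mul_of_nonneg_right
  · exact_mod_cast hD.1
  · positivity

theorem second_moment {P : ℝ} (hP : 0 ≤ P) (hP1 : P ≤ 1) {A : ℕ → Finset V} (hA : Monotone A)
    {θ : ℕ → ℝ} (i : ℕ) (h0 : ∀ j < i, 0 ≤ θ j) (h1 : ∀ j < i, θ j ≤ 1) {X : Finset V} {K : ℕ}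
    {ε : ℝ} (hε : 0 ≤ ε) (hIH : IHyp P A θ i X (K + 2) ε) {D : Finset (Finset V)}
    (hD : Near A i X K D) :
    |EE A θ i (fun u => ind D u * (MM D u : ℝ) ^ 2) -
      (D.card * mm P A i X) ^ 2 * QQ P A i D| ≤
      K ^ 2 * (X.card ^ 2 * ε + (2 * K ^ 2 + 1) * X.card) := by
  set S := X ∩ A i with hS
  have hSX : S.card ≤ X.card := Finset.card_le_card Finset.inter_subset_left
  have e1 : EE A θ i (fun u => ind D u * (MM D u : ℝ) ^ 2) =
      ∑ W ∈ D, ∑ W' ∈ D, ∑ p ∈ S ×ˢ S, (if p.1 ∈ W ∧ p.2 ∈ W' then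
        EE A θ i (ind (insert (W.erase p.1) (insert (W'.erase p.2) D))) else 0) := by
    have h2 : (fun u : Finset V → Bool => ind D u * (MM D u : ℝ) ^ 2) =
        fun u => ∑ W ∈ D, ∑ W' ∈ D, ∑ p ∈ S ×ˢ S, (if p.1 ∈ W ∧ p.2 ∈ W' then
          ind (insert (W.erase p.1) (insert (W'.erase p.2) D)) u else 0) := by
      ext u
      exact ind_mul_MM_sq D (fun W hW => (hD.2 W hW).1) u
    rw [h2, EE_sum]
    apply Finset.sum_congr rfl
    intro W _
    rw [EE_sum]
    apply Finset.sum_congr rfl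
    intro W' _
    rw [EE_sum]
    apply Finset.sum_congr rfl
    intro p _
    rw [EE_ite]
  have e2 : (D.card * mm P A i X) ^ 2 * QQ P A i D =
      ∑ W ∈ D, ∑ W' ∈ D, ∑ p ∈ S ×ˢ S, QQ P A i D * wt P A i p.2 * wt P A i p.1 := by
    rw [Finset.sum_const, nsmul_eq_mul, Finset.sum_const, nsmul_eq_mul, Finset.sum_product]
    have h2 : ∑ x ∈ S, ∑ y ∈ S, QQ P A i D * wt P A i y * wt P A i x =
        QQ P A i D * (mm P A i X * mm P A i X) := by
      unfold mm
      rw [Finset.sum_mul_sum, Finset.mul_sum]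
      apply Finset.sum_congr rfl
      intro x _
      rw [Finset.mul_sum]
      apply Finset.sum_congr rfl
      intro y _
      ring
    simp only
    rw [h2]
    ring
  rw [e1, e2, ← Finset.sum_sub_distrib]
  refine (Finset.abs_sum_le_sum_abs _ _).trans ?_
  have hQ0 := QQ_nonneg hP A i D
  have hQ1 := QQ_le_one hP hP1 A i D
  set B := bad1 S D with hB
  set B2 : Finset (V × V) := (B ×ˢ S) ∪ (S ×ˢ B) ∪ S.image (fun v => (v, v)) with hB2
  have hB2c : (B2.card : ℝ) ≤ (2 * K ^ 2 + 1) * X.card := by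
    have h2 : B2.card ≤ B.card * S.card + S.card * B.card + S.card := by
      rw [hB2]
      refine (Finset.card_union_le _ _).trans ?_
      have h3 := Finset.card_union_le (B ×ˢ S) (S ×ˢ B)
      rw [Finset.card_product, Finset.card_product] at h3
      have h4 : (S.image (fun v => (v, v))).card ≤ S.card := Finset.card_image_le
      omega
    have h3 : B.card ≤ K ^ 2 := bad1_card hD
    have h4 : B.card * S.card ≤ K ^ 2 * X.card := Nat.mul_le_mul h3 hSX
    have h5 : B2.card ≤ (2 * K ^ 2 + 1) * X.card := by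
      have h6 : S.card * B.card = B.card * S.card := mul_comm _ _
      have h7 : (2 * K ^ 2 + 1) * X.card = 2 * (K ^ 2 * X.card) + X.card := by ring
      omega
    exact_mod_cast h5
  have h3 : ∀ W ∈ D, |∑ W' ∈ D, ∑ p ∈ S ×ˢ S, (if p.1 ∈ W ∧ p.2 ∈ W' then
        EE A θ i (ind (insert (W.erase p.1) (insert (W'.erase p.2) D))) else 0) -
      ∑ W' ∈ D, ∑ p ∈ S ×ˢ S, QQ P A i D * wt P A i p.2 * wt P A i p.1| ≤
      K * ((X.card : ℝ) ^ 2 * ε + (2 * K ^ 2 + 1) * X.card) := by
    intro W hW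
    rw [← Finset.sum_sub_distrib]
    refine (Finset.abs_sum_le_sum_abs _ _).trans ?_
    have h4 : ∀ W' ∈ D, |∑ p ∈ S ×ˢ S, (if p.1 ∈ W ∧ p.2 ∈ W' then
        EE A θ i (ind (insert (W.erase p.1) (insert (W'.erase p.2) D))) else 0) -
      ∑ p ∈ S ×ˢ S, QQ P A i D * wt P A i p.2 * wt P A i p.1| ≤
        (X.card : ℝ) ^ 2 * ε + (2 * K ^ 2 + 1) * X.card := by
      intro W' hW'
      have h5 := sum_close (S ×ˢ S) B2
        (fun p => if p.1 ∈ W ∧ p.2 ∈ W' then
          EE A θ i (ind (insert (W.erase p.1) (insert (W'.erase p.2) D))) else 0)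
        (fun p => QQ P A i D * wt P A i p.2 * wt P A i p.1) hε ?_ ?_ ?_ ?_ ?_
      · refine h5.trans ?_
        have h6 : (((S ×ˢ S).card : ℕ) : ℝ) * ε ≤ (X.card : ℝ) ^ 2 * ε := by
          apply mul_le_mul_of_nonneg_right _ hε
          rw [Finset.card_product, sq]
          exact_mod_cast Nat.mul_le_mul hSX hSX
        linarith
      · intro p _
        split_ifs
        · exact EE_nonneg hA i h0 h1 (ind_nonneg _)
        · exact le_rfl
      · intro p _
        split_ifs
        · exact EE_ind_le_one hA i h0 h1 _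
        · exact zero_le_one
      · intro p _
        exact mul_nonneg (mul_nonneg hQ0 (wt_nonneg hP A i _)) (wt_nonneg hP A i _)
      · intro p _
        exact mul_le_one₀ (mul_le_one₀ hQ1 (wt_nonneg hP A i _) (wt_le_one hP hP1 A i _))
          (wt_nonneg hP A i _) (wt_le_one hP hP1 A i _)
      · rintro ⟨v, v'⟩ hp hb
        rw [Finset.mem_product] at hp
        simp only at hp
        have hvB : v ∉ B := by
          intro h
          apply hb
          rw [hB2, Finset.mem_union, Finset.mem_union, Finset.mem_product]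
          exact Or.inl (Or.inl ⟨h, hp.2⟩)
        have hvB' : v' ∉ B := by
          intro h
          apply hb
          rw [hB2, Finset.mem_union, Finset.mem_union, Finset.mem_product, Finset.mem_product]
          exact Or.inl (Or.inr ⟨hp.1, h⟩)
        have hne : v ≠ v' := by
          rintro rfl
          apply hb
          rw [hB2, Finset.mem_union]
          exact Or.inr (Finset.mem_image.mpr ⟨v, hp.1, rfl⟩)
        have g1 := mem_of_not_bad1 hp.1 hvB
        have g2 := mem_of_not_bad1 hp.2 hvB'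
        simp only
        rw [if_pos ⟨g1 W hW, g2 W' hW'⟩, ← QQ_insert P A i D hW' g2]
        have g3 : ∀ W'' ∈ insert (W'.erase v') D, v ∈ W'' := by
          intro W'' hW''
          rcases Finset.mem_insert.mp hW'' with rfl | hW''
          · exact Finset.mem_erase.mpr ⟨hne, g1 W' hW'⟩
          · exact g1 W'' hW''
        rw [← QQ_insert P A i (insert (W'.erase v') D) (Finset.mem_insert_of_mem hW) g3]
        apply hIH
        · refine (Finset.card_insert_le _ _).trans ?_
          have g4 := Finset.card_insert_le (W'.erase v') D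
          have := hD.1
          omega
        · intro Z hZ
          rcases Finset.mem_insert.mp hZ with rfl | hZ
          · refine ⟨(Finset.erase_subset _ _).trans ((hD.2 W hW).1.trans
              Finset.inter_subset_left), fun j hj => ?_⟩
            have h6 := sdiff_erase_card (v := v) (near_card_sdiff hA (hD.2 W hW).2 hj)
            omega
          rcases Finset.mem_insert.mp hZ with rfl | hZ
          · refine ⟨(Finset.erase_subset _ _).trans ((hD.2 W' hW').1.trans
              Finset.inter_subset_left), fun j hj => ?_⟩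
            have h6 := sdiff_erase_card (v := v') (near_card_sdiff hA (hD.2 W' hW').2 hj)
            omega
          · refine ⟨(hD.2 Z hZ).1.trans Finset.inter_subset_left, fun j hj => ?_⟩
            have h6 := near_card_sdiff hA (hD.2 Z hZ).2 hj
            omega
    refine (Finset.sum_le_sum h4).trans ?_
    rw [Finset.sum_const, nsmul_eq_mul]
    apply mul_le_mul_of_nonneg_right
    · exact_mod_cast hD.1
    · positivity
  refine (Finset.sum_le_sum h3).trans ?_
  rw [Finset.sum_const, nsmul_eq_mul]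
  have h7 : (D.card : ℝ) * (K * ((X.card : ℝ) ^ 2 * ε + (2 * K ^ 2 + 1) * X.card)) ≤
      K * (K * ((X.card : ℝ) ^ 2 * ε + (2 * K ^ 2 + 1) * X.card)) := by
    apply mul_le_mul_of_nonneg_right
    · exact_mod_cast hD.1
    · positivity
  refine h7.trans (le_of_eq ?_)
  ring

/-- the variance bound -/
theorem variance_bound {P : ℝ} (hP : 0 ≤ P) (hP1 : P ≤ 1) {A : ℕ → Finset V} (hA : Monotone A)
    {θ : ℕ → ℝ} (i : ℕ) (h0 : ∀ j < i, 0 ≤ θ j) (h1 : ∀ j < i, θ j ≤ 1) {X : Finset V} {K : ℕ}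
    {ε : ℝ} (hε : 0 ≤ ε) (hIH : IHyp P A θ i X (K + 2) ε) {D : Finset (Finset V)}
    (hD : Near A i X K D) :
    EE A θ i (fun u => ind D u * ((MM D u : ℝ) - D.card * mm P A i X) ^ 2) ≤
      K ^ 2 * (4 * X.card ^ 2 * ε + (4 * K ^ 2 + 1) * X.card) := by
  set c : ℝ := D.card * mm P A i X with hc
  have e1 : EE A θ i (fun u => ind D u * ((MM D u : ℝ) - c) ^ 2) =
      EE A θ i (fun u => ind D u * (MM D u : ℝ) ^ 2) - 2 * c * EE A θ i (fun u => ind D u * MM D u)
        + c ^ 2 * EE A θ i (ind D) := by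
    have h2 : (fun u : Finset V → Bool => ind D u * ((MM D u : ℝ) - c) ^ 2) =
        fun u => (ind D u * (MM D u : ℝ) ^ 2 + (-(2 * c)) * (ind D u * MM D u)) +
          c ^ 2 * ind D u := by
      ext u; ring
    rw [h2, EE_add, EE_add, EE_mul_left, EE_mul_left]
    ring
  have hQ0 := QQ_nonneg hP A i D
  have hQ1 := QQ_le_one hP hP1 A i D
  have f1 := first_moment hP hP1 hA i h0 h1 hε hIH hD
  have f2 := second_moment hP hP1 hA i h0 h1 hε hIH hD
  have f0 : |EE A θ i (ind D) - QQ P A i D| ≤ ε := by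
    apply hIH
    · have := hD.1; omega
    · intro Z hZ
      refine ⟨(hD.2 Z hZ).1.trans Finset.inter_subset_left, fun j hj => ?_⟩
      have h6 := near_card_sdiff hA (hD.2 Z hZ).2 hj
      omega
  rw [← hc] at f1 f2
  have hm0 := mm_nonneg hP A i X
  have hm1 := mm_le hP hP1 A i X
  have hc0 : 0 ≤ c := mul_nonneg (Nat.cast_nonneg _) hm0
  have hcK : c ≤ K * X.card := by
    rw [hc]
    exact mul_le_mul (by exact_mod_cast hD.1) hm1 hm0 (Nat.cast_nonneg _)
  rw [abs_le] at f0 f1 f2
  rw [e1]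
  have hKX : (0 : ℝ) ≤ K * X.card := by positivity
  have g1 : c * (c * QQ P A i D - EE A θ i (fun u => ind D u * MM D u)) ≤
      (K * X.card) * (K * (X.card * ε + K ^ 2)) := by
    have : c * QQ P A i D - EE A θ i (fun u => ind D u * MM D u) ≤
      K * (X.card * ε + K ^ 2) := by linarith [f1.1]
    refine (mul_le_mul_of_nonneg_left this hc0).trans ?_
    apply mul_le_mul_of_nonneg_right hcK
    positivity
  have g2 : c ^ 2 * (EE A θ i (ind D) - QQ P A i D) ≤ (K * X.card) ^ 2 * ε := by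
    refine (mul_le_mul_of_nonneg_left f0.2 (by positivity)).trans ?_
    apply mul_le_mul_of_nonneg_right _ hε
    exact pow_le_pow_left₀ hc0 hcK 2
  have g3 := f2.2
  nlinarith [g1, g2, g3]

end

end Pool.Agent.H123R2
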