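import Pool.Agent.H123R2.Cover

/-!
Moving covering families to a subset, and counting.
-/

set_option autoImplicit false
set_option linter.unusedSectionVars false

namespace Pool.Agent.H123R2

open Finset

/-- for every `n` there is a covering family of `r`-subsets of `Fin n` of relative size at most
`c / (r + 1)` -/
def Good (r : ℕ) (c : ℝ) : Prop :=
  ∀ n : ℕ, ∃ F : Finset (Finset (Fin n)), Cov univ r F ∧
    (F.card : ℝ) * (r + 1) ≤ c * (n.choose r : ℝ)

section
variable {V : Type} [Fintype V] [DecidableEq V]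

theorem transport {m : ℕ} {s : ℝ} (h : Good m s) (B : Finset V) :
    ∃ G : Finset (Finset V), Cov B m G ∧ (G.card : ℝ) * (m + 1) ≤ s * (B.card.choose m : ℝ) := by
  obtain ⟨F, ⟨hF1, hF2⟩, hF3⟩ := h B.card
  set e : Fin B.card ≃ B := B.equivFin.symm with he
  set f : Fin B.card ↪ V := e.toEmbedding.trans (Function.Embedding.subtype _) with hf
  have hfB : ∀ i, f i ∈ B := fun i => (e i).2
  have hfs : ∀ v ∈ B, ∃ i, f i = v := by
    intro v hv
    refine ⟨e.symm ⟨v, hv⟩, ?_⟩
    simp [hf]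
  refine ⟨F.image (fun Z => Z.map f), ⟨?_, ?_⟩, ?_⟩
  · intro Z hZ
    obtain ⟨W, hW, rfl⟩ := Finset.mem_image.mp hZ
    refine ⟨?_, ?_⟩
    · intro v hv
      obtain ⟨i, _, rfl⟩ := Finset.mem_map.mp hv
      exact hfB i
    · rw [Finset.card_map]
      exact (hF1 W hW).2
  · intro Y hYB hY
    have h1 : (univ.filter fun i => f i ∈ Y).map f = Y := by
      ext v
      rw [Finset.mem_map]
      constructor
      · rintro ⟨i, hi, rfl⟩
        exact (Finset.mem_filter.mp hi).2
      · intro hv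
        obtain ⟨i, rfl⟩ := hfs v (hYB hv)
        exact ⟨i, Finset.mem_filter.mpr ⟨Finset.mem_univ _, hv⟩, rfl⟩
    have h2 : (univ.filter fun i => f i ∈ Y).card = m + 1 := by
      rw [← Finset.card_map f, h1, hY]
    obtain ⟨Z, hZ, hZY⟩ := hF2 _ (Finset.subset_univ _) h2
    refine ⟨Z.map f, Finset.mem_image_of_mem _ hZ, ?_⟩
    rw [← h1]
    exact Finset.map_subset_map.mpr hZY
  · refine le_trans ?_ hF3
    apply mul_le_mul_of_nonneg_right _ (by positivity)
    exact_mod_cast Finset.card_image_le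

theorem good_of_type {r : ℕ} {c : ℝ}
    (h : ∀ n : ℕ, ∃ F : Finset (Finset (Fin n)), Cov univ r F ∧
      (F.card : ℝ) * (r + 1) ≤ c * (n.choose r : ℝ)) : Good r c := h

/-- the trivial bound -/
theorem good_trivial (r : ℕ) : Good r (r + 1) := by
  intro n
  refine ⟨powersetCard r univ, ⟨fun Z hZ => ?_, fun Y _ hY => ?_⟩, ?_⟩
  · exact ⟨Finset.subset_univ _, (Finset.mem_powersetCard.mp hZ).2⟩
  · obtain ⟨Z, hZ, hZc⟩ := Finset.exists_subset_card_eq (show r ≤ Y.card by omega)
    exact ⟨Z, Finset.mem_powersetCard.mpr ⟨Finset.subset_univ _, hZc⟩, hZ⟩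
  · rw [Finset.card_powersetCard, Finset.card_univ, Fintype.card_fin]
    linarith

theorem Good.mono {r : ℕ} {c c' : ℝ} (h : Good r c) (hc : c ≤ c') : Good r c' := by
  intro n
  obtain ⟨F, h1, h2⟩ := h n
  refine ⟨F, h1, h2.trans ?_⟩
  exact mul_le_mul_of_nonneg_right hc (Nat.cast_nonneg _)

/-- the Vandermonde bound -/
theorem vandermonde_le (b c r : ℕ) (T : Finset ℕ) (hT : ∀ m ∈ T, m ≤ r) :
    ∑ m ∈ T, b.choose m * c.choose (r - m) ≤ (b + c).choose r := by
  rw [Nat.add_choose_eq, Finset.Nat.sum_antidiagonal_eq_sum_range_succ_mk]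
  apply Finset.sum_le_sum_of_subset
  intro m hm
  rw [Finset.mem_range]
  have := hT m hm
  omega

/-- counting sets whose trace on `B` lies in `G` -/
theorem count_trace (r : ℕ) (B : Finset V) (G : ℕ → Finset (Finset V)) (T : Finset ℕ) :
    ((powersetCard r (univ : Finset V)).filter
      (fun X => X ∩ B ∈ G (X ∩ B).card ∧ (X ∩ B).card ∈ T)).card ≤
      ∑ m ∈ T, (G m).card * (Bᶜ.card).choose (r - m) := by
  have h1 : ((powersetCard r (univ : Finset V)).filter
      (fun X => X ∩ B ∈ G (X ∩ B).card ∧ (X ∩ B).card ∈ T)) ⊆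
      T.biUnion fun m => ((G m) ×ˢ (powersetCard (r - m) Bᶜ)).image fun p => p.1 ∪ p.2 := by
    intro X hX
    rw [Finset.mem_filter, Finset.mem_powersetCard] at hX
    rw [Finset.mem_biUnion]
    refine ⟨(X ∩ B).card, hX.2.2, ?_⟩
    rw [Finset.mem_image]
    refine ⟨(X ∩ B, X ∩ Bᶜ), ?_, ?_⟩
    · rw [Finset.mem_product, Finset.mem_powersetCard]
      refine ⟨hX.2.1, Finset.inter_subset_right, ?_⟩
      have h2 : X ∩ Bᶜ = X \ (X ∩ B) := by
        ext a
        simp only [Finset.mem_inter, Finset.mem_compl, Finset.mem_sdiff]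
        tauto
      rw [h2, Finset.card_sdiff_of_subset Finset.inter_subset_left, hX.1.2]
    · ext a
      simp only [Finset.mem_inter, Finset.mem_compl, Finset.mem_union]
      tauto
  refine (Finset.card_le_card h1).trans (Finset.card_biUnion_le.trans ?_)
  apply Finset.sum_le_sum
  intro m _
  refine Finset.card_image_le.trans ?_
  rw [Finset.card_product, Finset.card_powersetCard]

theorem count_trace_real (r : ℕ) (B : Finset V) (G : ℕ → Finset (Finset V)) (T : Finset ℕ)
    (hT : ∀ m ∈ T, m ≤ r) {s q : ℝ} (hs : 0 ≤ s) (hq : 0 < q) (hTq : ∀ m ∈ T, q ≤ (m : ℝ) + 1)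
    (hG : ∀ m ∈ T, ((G m).card : ℝ) * (m + 1) ≤ s * (B.card.choose m : ℝ)) :
    (((powersetCard r (univ : Finset V)).filter
      (fun X => X ∩ B ∈ G (X ∩ B).card ∧ (X ∩ B).card ∈ T)).card : ℝ) ≤
      s / q * ((Fintype.card V).choose r : ℝ) := by
  have h1 : (((powersetCard r (univ : Finset V)).filter
      (fun X => X ∩ B ∈ G (X ∩ B).card ∧ (X ∩ B).card ∈ T)).card : ℝ) ≤
      ∑ m ∈ T, ((G m).card : ℝ) * ((Bᶜ.card).choose (r - m) : ℝ) := by
    exact_mod_cast count_trace r B G T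
  refine h1.trans ?_
  have h2 : ∀ m ∈ T, ((G m).card : ℝ) * ((Bᶜ.card).choose (r - m) : ℝ) ≤
      s / q * ((B.card.choose m * (Bᶜ.card).choose (r - m) : ℕ) : ℝ) := by
    intro m hm
    push_cast
    rw [← mul_assoc]
    apply mul_le_mul_of_nonneg_right _ (Nat.cast_nonneg _)
    rw [div_mul_eq_mul_div, le_div_iff₀ hq]
    refine le_trans ?_ (hG m hm)
    exact mul_le_mul_of_nonneg_left (hTq m hm) (Nat.cast_nonneg _)
  refine (Finset.sum_le_sum h2).trans ?_
  rw [← Finset.mul_sum]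
  apply mul_le_mul_of_nonneg_left _ (by positivity)
  have h3 := vandermonde_le B.card Bᶜ.card r T hT
  have h4 : B.card + Bᶜ.card = Fintype.card V := Finset.card_add_card_compl B
  rw [h4] at h3
  exact_mod_cast h3

end

end Pool.Agent.H123R2
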